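import Mathlib
import Pool.Agent.W97.MT.Defs
import Pool.Agent.Y700.Defs
import Pool.Agent.TH841.SH.ShaDef

/-!
# Project CT (helper703): cubic twists and the `3`-part of the leading-term formula, definitions

`E_D : y² + D y = x³`, the curve that is `3`-isogenous to `x³ + y³ = D`.
-/

set_option autoImplicit false

open scoped Classical

namespace Pool.Agent.Y703.CT

open Pool.Agent.W97.MT (affCount ap IsGloballyMinimal)
open Pool.Agent.Y700 (psi Omega SingRed E0 tam)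

/-- the equation `y² + D y = x³` -/
def WD (D : ℤ) : WeierstrassCurve ℤ := ⟨0, 0, D, 0, 0⟩

/-- the product of the Tamagawa numbers at the primes dividing the discriminant -/
noncomputable def tamProd (W : WeierstrassCurve ℤ) : ℕ :=
  ∏ p ∈ W.Δ.natAbs.primeFactors, if h : p.Prime then (haveI := Fact.mk h; tam W p) else 1

/-- the curve over `ℚ` -/
abbrev EQ (W : WeierstrassCurve ℤ) : WeierstrassCurve ℚ := W.map (Int.castRingHom ℚ)

/-- `f` is entire and equal to the Euler product of `W` for `Re s > 3/2` -/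
def IsL (W : WeierstrassCurve ℤ) (f : ℂ → ℂ) : Prop :=
  Differentiable ℂ f ∧ ∀ s : ℂ, 3 / 2 < s.re →
    HasProd (fun p : Nat.Primes => (1 - (ap W p : ℂ) * ((p : ℕ) : ℂ) ^ (-s) +
      (if ((p : ℕ) : ℤ) ∣ W.Δ then 0 else ((p : ℕ) : ℂ) ^ (1 - 2 * s)))⁻¹) (f s)

/-- `u` is a unit at all places above `3`: it is not zero, and for some `n` prime to `3` the
numbers `n u` and `n / u` are algebraic integers. -/
def ThreeUnit (u : ℂ) : Prop :=
  u ≠ 0 ∧ ∃ n : ℤ, IsCoprime 3 n ∧ IsIntegral ℤ ((n : ℂ) * u) ∧ IsIntegral ℤ ((n : ℂ) * u⁻¹)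

/-- `D` is not divisible by `3` and by the cube of a prime -/
def Base (D : ℕ) : Prop := D ≠ 0 ∧ ¬ 3 ∣ D ∧ ∀ p : ℕ, p.Prime → ¬ p ^ 3 ∣ D

/-- `D` is not `±1` modulo `9` and exactly one prime `q = 2` modulo `3` divides `D` -/
def Cls (D : ℕ) : Prop := Base D ∧ D % 9 ≠ 1 ∧ D % 9 ≠ 8 ∧
  ∃ q : ℕ, q.Prime ∧ q % 3 = 2 ∧ q ∣ D ∧ ∀ p : ℕ, p.Prime → p ∣ D → p ≠ q → p % 3 = 1

/-- `D` is not a product `d₀ d₁ d₂` of coprime factors, at least two of them different from `1`,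
such that `d₁ d₂²`, `d₂ d₀²`, `d₀ d₁²` are cubes modulo the primes dividing `d₀`, `d₁`, `d₂` -/
def NoSplit (D : ℕ) : Prop :=
  ∀ d : ZMod 3 → ℕ, ∏ c, d c = D → (∀ c c', c ≠ c' → Nat.Coprime (d c) (d c')) →
    (∀ (c : ZMod 3) (p : ℕ), p.Prime → p ∣ d c →
      ∃ x : ℤ, (p : ℤ) ∣ (d (c + 1) : ℤ) * (d (c + 2) : ℤ) ^ 2 - x ^ 3) →
    ∃ c, ∀ c', c' ≠ c → d c' = 1

end Pool.Agent.Y703.CT
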