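import Pool.Agent.Y703.CT.StmB
import Pool.Agent.Y715.T.Odd
import Pool.Agent.Y715.T.Thr

/-!
# Project CT: statements of the descent

`E : y² + y = x³` over `QB = AlgebraicClosure ℚ` and over the algebraic closures of the `ℚ_p`
(`Pool.Agent.Y715.T.Df`, `Ell`), with the Galois action of `GK i₀ = Gal(QB / ℚ(i₀))`,
`i₀ ^ 2 + i₀ + 1 = 0`, twisted by a cubic character `a`: this is the curve
`E_D : y² + D y = x³`, via `(x, y) ↦ (u² x, u³ y)` with `u ^ 3 = D` and `σ u = i₀ ^ (-a σ) u`.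
-/

set_option autoImplicit false
set_option linter.unusedVariables false

open scoped Classical

namespace Pool.Agent.Y703.CT

open WeierstrassCurve
open Pool.Agent.Y692.QS (Ei w nr toC)
open Pool.Agent.Y715.T.Rec (cs)
open Pool.Agent.Y715.T.RecG (Pq)
open Pool.Agent.Y715.T.Gi Pool.Agent.Y715.T.Nr Pool.Agent.Y715.T.Df Pool.Agent.Y715.T.Ell
open Pool.Agent.TH841.SH.D (Sha)

/-- the power of `[ω] : (x, y) ↦ (I x, y)` -/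
noncomputable def jj {F : Type} [Field F] [Algebra ℚ F] [CharZero F] {I : F}
    (hI : I ^ 2 + I + 1 = 0) (c : ZMod 3) (P : Pt F) : Pt F := (im (isE F) hI)^[c.val] P

/-- the twisted action -/
noncomputable def act {i₀ : QB} (hi : i₀ ^ 2 + i₀ + 1 = 0) (a : GK i₀ → ZMod 3) (σ : GK i₀)
    (P : Pt QB) : Pt QB := jj hi (a σ) (pm (gh σ) P)

lemma iota_sq' {p : ℕ} [Fact p.Prime] {i₀ : QB} (hi : i₀ ^ 2 + i₀ + 1 = 0)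
    (ι : QB →ₐ[ℚ] PadicAlgCl p) : (ι i₀) ^ 2 + ι i₀ + 1 = 0 := by
  rw [← map_pow, ← map_add, ← map_one ι, ← map_add, hi, map_zero]

/-- the local equation: `R` is a local point with `τ * R - R = h(σ) T` -/
def St1 {p : ℕ} [Fact p.Prime] {i₀ : QB} (hi : i₀ ^ 2 + i₀ + 1 = 0) (ι : QB →ₐ[ℚ] PadicAlgCl p)
    (a h : GK i₀ → ZMod 3) (R : Pt (PadicAlgCl p)) : Prop :=
  ∀ (τ : Au p) (σ : GK i₀), Cmp ι τ σ →
    jj (iota_sq' hi ι) (a σ) (pm (lh τ) R) - R = tt _ (h σ)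

/-- `a` is the character of the cubic twist by `D` -/
structure Tw {i₀ : QB} (hi : i₀ ^ 2 + i₀ + 1 = 0) (D : Ei) (u : QB) (a : GK i₀ → ZMod 3) :
    Prop where
  cube : u ^ 3 = ev i₀ hi D
  act : ∀ σ : GK i₀, σ u = i₀ ^ (-a σ).val * u

/-- CT-LOC3: the local condition at the prime above three. -/
def S_LOC3 : Prop := ∀ (i₀ : QB) (hi : i₀ ^ 2 + i₀ + 1 = 0) (D : Ei), (3 : Ei) ∣ D - 1 →
  ¬ (9 : ℤ) ∣ nr D - 1 → ∀ (u : QB) (a : GK i₀ → ZMod 3), Tw hi D u a →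
  ∀ (h : GK i₀ → ZMod 3) (v q : Ei) (g : ℕ), IsUnit v → Kc hi (v * lam ^ g * (1 + 3 * q)) h →
  ∀ (_ : Fact (Nat.Prime 3)) (ι : QB →ₐ[ℚ] PadicAlgCl 3) (R : Pt (PadicAlgCl 3)),
    St1 hi ι a h R → 3 ∣ g ∧ (v = 1 ∨ v = -1)

/-- CT-RAM: the local condition at the primes dividing `D`. -/
def S_RAM : Prop := ∀ (J : Type) [Fintype J] (π : J → Ei) (e : J → ZMod 3), Dt π e →
  ∀ (i₀ : QB) (hi : i₀ ^ 2 + i₀ + 1 = 0) (u : QB) (a : GK i₀ → ZMod 3), Tw hi (pD π e) u a →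
  ∀ (h : GK i₀ → ZMod 3) (j : J) (p : ℕ) [Fact p.Prime] (ι : QB →ₐ[ℚ] PadicAlgCl p),
    ‖ι (ev i₀ hi (π j))‖ < 1 → ∀ R, St1 hi ι a h R →
    ∃ ε : ZMod 3, ∀ (τ : Au p) (σ : GK i₀), Cmp ι τ σ → h σ = ε * a σ

/-- CT-UNR: the local condition at the other primes. -/
def S_UNR : Prop := ∀ (J : Type) [Fintype J] (π : J → Ei) (e : J → ZMod 3), Dt π e →
  ∀ (i₀ : QB) (hi : i₀ ^ 2 + i₀ + 1 = 0) (u : QB) (a : GK i₀ → ZMod 3), Tw hi (pD π e) u a →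
  ∀ (h : GK i₀ → ZMod 3) (p : ℕ) [Fact p.Prime] (ι : QB →ₐ[ℚ] PadicAlgCl p), p ≠ 3 →
    (∀ j, ¬ ‖ι (ev i₀ hi (π j))‖ < 1) → ∀ R, St1 hi ι a h R →
    ∀ (τ : Au p) (σ : GK i₀), Cmp ι τ σ → Inert τ → a σ = 0 ∧ h σ = 0

/-- CT-SEL: the Selmer group. -/
def S_SEL : Prop := S_REC → S_LOC3 → S_RAM → S_UNR →
  ∀ (J : Type) [Fintype J] (π : J → Ei) (e : J → ZMod 3), Dt π e → Ker π e →
  ¬ (9 : ℤ) ∣ nr (pD π e) - 1 →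
  ∀ (i₀ : QB) (hi : i₀ ^ 2 + i₀ + 1 = 0) (u : QB) (a : GK i₀ → ZMod 3), Tw hi (pD π e) u a →
  ∀ h : GK i₀ → ZMod 3, IsLocallyConstant h → (∀ σ τ, h (σ * τ) = h σ + h τ) →
    (∀ (p : ℕ) [Fact p.Prime] (ι : QB →ₐ[ℚ] PadicAlgCl p), ∃ R, St1 hi ι a h R) →
    ∃ c : ZMod 3, ∀ σ, h σ = c * a σ

/-- the conclusion of CT-SEL -/
def Sel1 {i₀ : QB} (hi : i₀ ^ 2 + i₀ + 1 = 0) (a : GK i₀ → ZMod 3) : Prop :=
  ∀ h : GK i₀ → ZMod 3, IsLocallyConstant h → (∀ σ τ, h (σ * τ) = h σ + h τ) →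
    (∀ (p : ℕ) [Fact p.Prime] (ι : QB →ₐ[ℚ] PadicAlgCl p), ∃ R, St1 hi ι a h R) →
    ∃ c : ZMod 3, ∀ σ, h σ = c * a σ

/-- the `3`-primary part of the Tate-Shafarevich group of `E_D` over `ℚ(ω)` is trivial -/
def ShK {i₀ : QB} (hi : i₀ ^ 2 + i₀ + 1 = 0) (a : GK i₀ → ZMod 3) : Prop :=
  ∀ (n : ℕ) (f : GK i₀ → Pt QB), IsLocallyConstant f →
    (∀ σ τ, f (σ * τ) = f σ + act hi a σ (f τ)) →
    (∀ (p : ℕ) [Fact p.Prime] (ι : QB →ₐ[ℚ] PadicAlgCl p), ∃ R : Pt (PadicAlgCl p),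
      ∀ (τ : Au p) (σ : GK i₀), Cmp ι τ σ →
        pm ι (f σ) = jj (iota_sq' hi ι) (a σ) (pm (lh τ) R) - R) →
    (∃ P, ∀ σ, 3 ^ n • f σ = act hi a σ P - P) → ∃ P, ∀ σ, f σ = act hi a σ P - P

/-- the group `E_D(ℚ(ω))` is finite and its `3`-primary part is `{0, T, -T}` -/
def MwK {i₀ : QB} (hi : i₀ ^ 2 + i₀ + 1 = 0) (a : GK i₀ → ZMod 3) : Prop :=
  {P : Pt QB | ∀ σ : GK i₀, act hi a σ P = P}.Finite ∧
    ∀ P : Pt QB, (∀ σ : GK i₀, act hi a σ P = P) → ∀ n : ℕ, 3 ^ n • P = 0 →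
      P = 0 ∨ P = T0 (isE QB) ∨ P = -T0 (isE QB)

/-- CT-SHK: the Tate-Shafarevich group over `ℚ(ω)`. -/
def S_SHK : Prop := ∀ (D : Ei), D ≠ 0 → ∀ (i₀ : QB) (hi : i₀ ^ 2 + i₀ + 1 = 0) (u : QB)
  (a : GK i₀ → ZMod 3), Tw hi D u a → Sel1 hi a → ShK hi a

/-- CT-MWK: the group of points over `ℚ(ω)`. (`a ≠ 0`: `D` is not a cube.) -/
def S_MWK : Prop := ∀ (D : Ei), D ≠ 0 → ∀ (i₀ : QB) (hi : i₀ ^ 2 + i₀ + 1 = 0) (u : QB)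
  (a : GK i₀ → ZMod 3), Tw hi D u a → (∃ σ, a σ ≠ 0) → Sel1 hi a → MwK hi a

/-- CT-DESQ: descent to `ℚ` and transfer to the curve `y² + D y = x³`. -/
def S_DESQ : Prop := ∀ (D : ℤ), D ≠ 0 → ∀ (i₀ : QB) (hi : i₀ ^ 2 + i₀ + 1 = 0) (u : QB)
  (a : GK i₀ → ZMod 3), Tw hi (D : Ei) u a → ShK hi a → MwK hi a →
    Finite (EQ (WD D)).toAffine.Point ∧
    padicValNat 3 (Nat.card (EQ (WD D)).toAffine.Point) = 1 ∧
    ∀ (n : ℕ) (x : Sha (EQ (WD D))), 3 ^ n • x = 0 → x = 0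

end Pool.Agent.Y703.CT
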