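import Pool.Agent.Y703.CT.Defs
import Pool.Agent.Y715.T.RecC

/-!
# Project CT: statements on the Eisenstein integers

Ring `Ei` (`Pool.Agent.Y692.QS.Ei = QuadraticAlgebra ℤ (-1) (-1)`, `w` the root of unity, `nr` the
norm, `toC : Ei →+* ℂ`), cubic symbol `cs π x : ZMod 3` (`Pool.Agent.Y715.T.Rec.cs`), primary primes
`Pq π : Prime π ∧ 3 ∣ π - 1` (`Pool.Agent.Y715.T.RecG.Pq`).
-/

set_option autoImplicit false

open scoped Classical

namespace Pool.Agent.Y703.CT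

open Pool.Agent.Y692.QS (Ei w nr toC)
open Pool.Agent.Y715.T.Rec (cs)
open Pool.Agent.Y715.T.RecG (Pq)

/-- different primary primes with exponents `1`, `2` -/
structure Dt {J : Type} (π : J → Ei) (e : J → ZMod 3) : Prop where
  pq : ∀ j, Pq (π j)
  nd : ∀ i j, i ≠ j → ¬ π j ∣ π i
  e0 : ∀ j, e j ≠ 0

/-- the product -/
def pD {J : Type} [Fintype J] (π : J → Ei) (e : J → ZMod 3) : Ei := ∏ j, π j ^ (e j).val

/-- the kernel of the Laplacian consists of the constants -/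
def Ker {J : Type} [Fintype J] (π : J → Ei) (e : J → ZMod 3) : Prop :=
  ∀ v : J → ZMod 3, (∀ j, ∑ i, e i * cs (π j) (π i) * (v i - v j) = 0) → ∀ i j, v i = v j

/-- the cubic character `α ↦ ∏ (α / π_j)^(e_j)` -/
noncomputable def chD {J : Type} [Fintype J] (π : J → Ei) (e : J → ZMod 3) (α : Ei) : ℂ :=
  if ∃ j, π j ∣ α then 0 else toC w ^ (∑ j, e j * cs (π j) α).val

/-- `F` is the entire continuation of the `L`-series of the Hecke character
`(α) ↦ α ∏ (α / π_j)^(e_j)`, `α` primary -/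
def IsHL {J : Type} [Fintype J] (π : J → Ei) (e : J → ZMod 3) (F : ℂ → ℂ) : Prop :=
  Differentiable ℂ F ∧ ∀ s : ℂ, 3 / 2 < s.re →
    HasSum (fun α : {α : Ei // (3 : Ei) ∣ α - 1} =>
      toC α * chD π e α * ((nr α : ℤ) : ℂ) ^ (-s)) (F s)

/-- CT-REC: cubic reciprocity for all primary primes, the conjugate ones included (for
`nr π ≠ nr ρ` this is `Pool.Agent.Y715.T.RecG.cs_comm`; for norms `1` modulo `9` it is
`Pool.Agent.Y715.T.RecC.cs_comm_all`). -/
def S_REC : Prop := ∀ π ρ : Ei, Pq π → Pq ρ → ¬ ρ ∣ π → cs ρ π = cs π ρ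

/-- CT-EXI: the factorization of `D` in the Eisenstein integers. -/
def S_EXI : Prop := ∀ D : ℕ, Base D → ∃ (n : ℕ) (π : Fin n → Ei) (e : Fin n → ZMod 3), Dt π e ∧
  ((D : Ei) = pD π e ∨ (D : Ei) = -pD π e)

/-- CT-CNT: the number of the primes. -/
def S_CNT : Prop := ∀ D : ℕ, Cls D → ∀ (J : Type) [Fintype J] (π : J → Ei) (e : J → ZMod 3),
  Dt π e → ((D : Ei) = pD π e ∨ (D : Ei) = -pD π e) →
    Fintype.card J + 1 = 2 * D.primeFactors.card

/-- CT-CRI: the criterion over `ℤ` implies the criterion over the Eisenstein integers. -/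
def S_CRI : Prop := S_REC → ∀ D : ℕ, Cls D → NoSplit D →
  ∀ (J : Type) [Fintype J] (π : J → Ei) (e : J → ZMod 3),
    Dt π e → ((D : Ei) = pD π e ∨ (D : Ei) = -pD π e) → Ker π e

/-- CT-LQ: the `L`-function of `y² + D y = x³` over `ℚ`. -/
def S_LQ : Prop := S_REC → ∀ D : ℕ, Base D →
  ∀ (J : Type) [Fintype J] (π : J → Ei) (e : J → ZMod 3),
    Dt π e → ((D : Ei) = pD π e ∨ (D : Ei) = -pD π e) →
    ∀ F, IsHL π (fun j => -e j) F → IsL (WD D) F

/-! ### The density part (helper699) -/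

/-- the primary primes dividing `D` -/
noncomputable def ppr (D : Ei) : Finset Ei :=
  if h : {π : Ei | Pq π ∧ π ∣ D}.Finite then h.toFinset else ∅

/-- the squarefree `D` in the class with the criterion -/
def GoodE (D : Ei) : Prop := (3 : Ei) ∣ D - 1 ∧ Squarefree D ∧ ¬ (9 : ℤ) ∣ nr D - 1 ∧
  ∀ v : Ei → ZMod 3, (∀ π ∈ ppr D, ∑ ρ ∈ ppr D, cs π ρ * (v ρ - v π) = 0) →
    ∀ π ∈ ppr D, ∀ ρ ∈ ppr D, v π = v ρ

/-- CT-DENS (helper699): a positive proportion of the elements is good. -/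
def S_DENS : Prop := ∃ c : ℝ, 0 < c ∧ ∃ X₀ : ℕ, ∀ X : ℕ, X₀ ≤ X →
  c * X ≤ ({D : Ei | nr D ≤ X ∧ GoodE D}.ncard : ℝ)

end Pool.Agent.Y703.CT
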