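import Pool.Agent.Y703.CT.StmB

/-!
# Project CT: counting statement for the density part
-/

set_option autoImplicit false

open scoped Classical

namespace Pool.Agent.Y703.CT

open Pool.Agent.Y692.QS (Ei w nr toC)

/-- the class of the primary squarefree elements whose norm is not `1` modulo `9` -/
def ClsE (D : Ei) : Prop := (3 : Ei) ∣ D - 1 ∧ Squarefree D ∧ ¬ (9 : ℤ) ∣ nr D - 1

/-- CT-CNT9: the class has positive density. -/
def S_CNT9 : Prop := ∃ c : ℝ, 0 < c ∧ ∃ X₀ : ℕ, ∀ X : ℕ, X₀ ≤ X →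
  c * X ≤ ({D : Ei | nr D ≤ X ∧ ClsE D}.ncard : ℝ)

/-- CT-DENS2 (helper699): at least half of the class is good. -/
def S_DENS2 : Prop := ∀ ε : ℝ, 0 < ε → ∃ X₀ : ℕ, ∀ X : ℕ, X₀ ≤ X →
  (1 / 2 - ε) * ({D : Ei | nr D ≤ X ∧ ClsE D}.ncard : ℝ) ≤
    ({D : Ei | nr D ≤ X ∧ GoodE D}.ncard : ℝ)

end Pool.Agent.Y703.CT
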