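import Pool.Agent.Y715.T.Ana

/-!
# The `3`-adic valuation of the sums, cubic characters
-/

set_option autoImplicit false
set_option linter.unusedSectionVars false

open Filter
open scoped Topology PeriodPair

namespace Pool.Agent.Y703.CT.Ana

open H667R3 Pool.Agent.W192.HK Pool.Agent.TH936.CM Pool.Agent.TH936.PU
open Pool.Agent.Y715.Dist Pool.Agent.Y715.Idn Pool.Agent.Y715.T.Lat Pool.Agent.Y696
open Pool.Agent.Y715.Two (v_nat v_int v_unit v_mul_le_of)
open Pool.Agent.Y715.T.Three Pool.Agent.Y715.T.Cg Pool.Agent.Y715.T.Comb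

variable {Γ : Type*} [LinearOrderedCommGroupWithZero Γ] {v : Valuation ℂ Γ}
  {L : PeriodPair} {Ω : ℂ} {ι : Type*} [DecidableEq ι]

/-! ### the three odd characters modulo three -/

/-- the three odd characters -/
noncomputable def ej (j : Fin 3) (x : eis) : ℂ := ee psi x ^ (2 * (j : ℕ) + 1)

/-- the three constants -/
noncomputable def Ef (L : PeriodPair) (Ω : ℂ) (j : Fin 3) : ℂ := if j = 0 then kap L Ω else 0

lemma eo_j (j : Fin 3) : Eo (3 : eis) (ej j) := by
  refine ⟨fun x y hxy => ?_, fun x y => ?_, fun x => ?_, fun x => ?_⟩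
  · unfold ej
    rw [eo.per x y hxy]
  · unfold ej
    rw [eo.mul, mul_pow]
  · unfold ej
    rw [eo.neg, Odd.neg_pow ⟨j, rfl⟩]
  · unfold ej
    rw [norm_pow]
    exact pow_le_one₀ (norm_nonneg _) (eo.bd x)

lemma ej_u (j : Fin 3) {u : eis} (hu : IsUnit u) : ej j u = (u : ℂ) ^ (2 * (j : ℕ) + 1) := by
  unfold ej
  rw [ee_u hu]

lemma ej_ncop (j : Fin 3) {x : eis} (hx : ¬ IsCoprime x 3) : ej j x = 0 := by
  unfold ej
  rw [ee_ncop hx, zero_pow (by omega)]

lemma ej_prim (j : Fin 3) {x : eis} (h : x - 1 ∈ (sp 3 : Ideal eis)) : ej j x = 1 := by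
  rw [(eo_j j).per _ _ h, ej_u j isUnit_one]
  push_cast
  rw [one_pow]

/-- the limits of the constants -/
theorem lim_j (hC : Cur L Ω) [Fintype (eis ⧸ (sp 3 : Ideal eis))] (j : Fin 3) :
    Tendsto (fun δ : ℝ => ∑ y : eis ⧸ (sp 3 : Ideal eis), ej j y.out *
      EE eis Ω δ (Ω * y.out / (3 : eis))) (𝓝[>] 0) (𝓝 (Ef L Ω j)) := by
  by_cases hj : j = 0
  · subst hj
    have h1 := lim_const hC
    unfold Ef
    rw [if_pos rfl]
    refine h1.congr fun δ => Finset.sum_congr rfl fun y _ => ?_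
    unfold ej
    rw [Fin.val_zero, mul_zero, zero_add, pow_one]
  · unfold Ef
    rw [if_neg hj]
    refine tendsto_const_nhds.congr fun δ => ?_
    have e3 : ((3 : eis) : ℂ) = 3 := rfl
    have hper : ∀ x y : eis, x - y ∈ (sp 3 : Ideal eis) →
        ej j x * EE eis Ω δ (Ω * x / (3 : eis)) = ej j y * EE eis Ω δ (Ω * y / (3 : eis)) := by
      intro x y hxy
      rw [(eo_j j).per x y hxy]
      congr 1
      apply EE_per hC.lat
      have := (div_mem_iff hC.lat three_ne (x - y)).2 hxy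
      convert this using 1
      push_cast
      ring
    rw [six_sum (fun y => ej j y * EE eis Ω δ (Ω * y / (3 : eis)))
      (fun x hx => by rw [ej_ncop j hx, zero_mul]) hper]
    have hterm : ∀ u : eis, IsUnit u → ej j u * EE eis Ω δ (Ω * u / (3 : eis)) =
        (u : ℂ) ^ (2 * (j : ℕ)) * EE eis Ω δ (Ω / 3) := by
      intro u hu
      have hu0 : (u : ℂ) ≠ 0 := coe_ne hu.ne_zero
      have e : Ω * (u : ℂ) / ((3 : eis) : ℂ) = u * (Ω / 3) := by
        rw [e3]
        ring
      rw [ej_u j hu, e, EE_unit hu, pow_succ]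
      field_simp
    have hu : ∀ v ∈ ({1, -1, omr, -omr, omr ^ 2, -omr ^ 2} : Set eis), IsUnit v := fun v hv =>
      (unit_list v).2 hv
    rw [hterm 1 (hu _ (by simp)), hterm (-1) (hu _ (by simp)), hterm omr (hu _ (by simp)),
      hterm (-omr) (hu _ (by simp)), hterm (omr ^ 2) (hu _ (by simp)),
      hterm (-omr ^ 2) (hu _ (by simp))]
    push_cast
    rw [omr_coe]
    have h3 := om_cube
    have hs := om_sq
    have hj' : (j : ℕ) = 1 ∨ (j : ℕ) = 2 := by
      have h1 := j.2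
      have h2 : (j : ℕ) ≠ 0 := fun h => hj (Fin.ext h)
      omega
    rcases hj' with h | h
    · rw [h]
      linear_combination (-2 * EE eis Ω δ (Ω / 3)) * hs +
        (-2 * om * EE eis Ω δ (Ω / 3)) * h3
    · rw [h]
      linear_combination (-2 * EE eis Ω δ (Ω / 3)) * hs +
        (-2 * om * EE eis Ω δ (Ω / 3) - 2 * EE eis Ω δ (Ω / 3) * (om ^ 5 + om ^ 2)) * h3

/-- the function `HH` for the three characters together -/
theorem HH_tot (hC : Cur L Ω) [Fintype (eis ⧸ (sp 3 : Ideal eis))] (u : ℂ) :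
    ∑ j : Fin 3, HH L Ω 3 (ej j) u = 3 * (℘'[L] (Ω / 3) / (℘[L] (Ω / 3) - ℘[L] u)) := by
  have e3 : ((3 : eis) : ℂ) = 3 := rfl
  have h1 : ∑ j : Fin 3, HH L Ω 3 (ej j) u = (1 / 2) * ∑ y : eis ⧸ (sp 3 : Ideal eis),
      (∑ j : Fin 3, ej j y.out) * Dd L (Ω * y.out / (3 : eis)) u := by
    unfold HH
    rw [← Finset.mul_sum, Finset.sum_comm]
    congr 1
    exact Finset.sum_congr rfl fun y _ => by rw [Finset.sum_mul]
  have hper : ∀ x y : eis, x - y ∈ (sp 3 : Ideal eis) →
      (∑ j : Fin 3, ej j x) * Dd L (Ω * x / ((3 : eis) : ℂ)) u =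
        (∑ j : Fin 3, ej j y) * Dd L (Ω * y / ((3 : eis) : ℂ)) u := by
    intro x y hxy
    rw [Finset.sum_congr rfl fun j _ => (eo_j j).per x y hxy]
    congr 1
    apply Pool.Agent.TH936.PU.Dd_per
    have := (hC.div_iff three_ne (x - y)).2 hxy
    convert this using 1
    push_cast
    ring
  rw [h1, six_sum (fun y => (∑ j : Fin 3, ej j y) * Dd L (Ω * y / ((3 : eis) : ℂ)) u)
    (fun x hx => by
      rw [Finset.sum_eq_zero fun j _ => ej_ncop j hx, zero_mul]) hper]
  have hterm : ∀ x : eis, IsUnit x → (∑ j : Fin 3, ej j x) * Dd L (Ω * x / ((3 : eis) : ℂ)) u =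
      ((x : ℂ) + x ^ 3 + x ^ 5) *
        ((((x : ℂ) ^ 3)⁻¹ * ℘'[L] (Ω / 3)) / (((x : ℂ) ^ 2)⁻¹ * ℘[L] (Ω / 3) - ℘[L] u)) := by
    intro x hx
    have h2 : (∑ j : Fin 3, ej j x) = (x : ℂ) + x ^ 3 + x ^ 5 := by
      rw [Fin.sum_univ_three, ej_u _ hx, ej_u _ hx, ej_u _ hx]
      norm_num
    rw [h2]
    congr 1
    unfold Dd
    have e : Ω * (x : ℂ) / ((3 : eis) : ℂ) = x * (Ω / 3) := by
      rw [e3]
      ring
    rw [e, wp_unit hC.lat hx, dwp_unit hC.lat hx]
  have hu : ∀ v ∈ ({1, -1, omr, -omr, omr ^ 2, -omr ^ 2} : Set eis), IsUnit v := fun v hv =>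
    (unit_list v).2 hv
  rw [hterm 1 (hu _ (by simp)), hterm (-1) (hu _ (by simp)), hterm omr (hu _ (by simp)),
    hterm (-omr) (hu _ (by simp)), hterm (omr ^ 2) (hu _ (by simp)),
    hterm (-omr ^ 2) (hu _ (by simp))]
  have h3 := om_cube
  have hs := om_sq
  have z1 : om + om ^ 3 + om ^ 5 = 0 := by linear_combination hs + (1 + om ^ 2) * h3
  have z2 : om ^ 2 + (om ^ 2) ^ 3 + (om ^ 2) ^ 5 = 0 := by
    linear_combination hs + (om ^ 3 + 1 + om * (om ^ 6 + om ^ 3 + 1)) * h3
  push_cast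
  rw [omr_coe]
  have z3 : -om + (-om) ^ 3 + (-om) ^ 5 = 0 := by linear_combination -z1
  have z4 : -om ^ 2 + (-om ^ 2) ^ 3 + (-om ^ 2) ^ 5 = 0 := by linear_combination -z2
  rw [z1, z2, z3, z4]
  norm_num
  ring

/-! ### the valuation of the values -/

lemma dwp_two {u : ℂ} (hu : 2 * u ∈ L.lattice) : ℘'[L] u = 0 := by
  have h1 : ℘'[L] u = ℘'[L] (-u) := by
    apply dwp_per
    have e : u - -u = 2 * u := by ring
    rw [e]
    exact hu
  rw [L.derivWeierstrassP_neg] at h1
  linear_combination (1 / 2 : ℂ) * h1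

lemma rel_la' (hC : Cur L Ω) {u : ℂ} (hl : lam * u ∉ L.lattice) :
    27 * (℘'[L] u ^ 2 - 1) ^ 2 * ℘'[L] (lam * u) ^ 2 =
      -(℘'[L] u ^ 2 * (℘'[L] u ^ 2 - 9) ^ 2) := by
  by_cases hu : 2 * u ∈ L.lattice
  · have h1 : 2 * (lam * u) ∈ L.lattice := by
      have h2 := hC.lat.mul la _ hu
      rw [la_coe] at h2
      have e : 2 * (lam * u) = lam * (2 * u) := by ring
      rw [e]
      exact h2
    rw [dwp_two hu, dwp_two h1]
    ring
  · exact rel_la hC hu hl

theorem dat' (hC : Cur L Ω) {c : eis} (hc : c ≠ 0) (h3c : IsCoprime 3 c) (hct : sp c ≠ ⊤)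
    (hfin : ∀ q : eis, q ≠ 0 → Finite (eis ⧸ sp q)) : Dat (XX L Ω c) (sL h3c) := by
  refine ⟨XX_fin hC hc hfin, fun x => ?_⟩
  have hl : lam * (Ω * x.1 / c) ∉ L.lattice := by
    have h3 := notMem_of_cop hct ((cop_la h3c).mul_left x.2)
    rw [← div_mem_iff hC.lat hc] at h3
    convert h3 using 2
    push_cast
    rw [la_coe]
    ring
  have h4 := rel_la' hC hl
  unfold XX
  rw [← h4]
  congr 3
  unfold sL
  push_cast
  rw [la_coe]
  ring

section val

variable (h3 : v 3 < 1)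

include h3

lemma om_val : v (1 - om) = v lam := by
  have h1 : (1 - om) * (1 - om) = -(3 * om) := by linear_combination om_sq
  have h2 : v (1 - om) * v (1 - om) = v lam * v lam := by
    rw [← map_mul, h1, v.map_neg, map_mul, z_pow (by norm_num) om_cube, mul_one, sq_three]
  rw [← pow_two, ← pow_two] at h2
  exact (pow_left_inj₀ zero_le zero_le two_ne_zero).1 h2

lemma om_val2 : v (1 - om ^ 2) = v lam := by
  have h1 : 1 - om ^ 2 = -(om ^ 2 * (1 - om)) := by linear_combination (-1 : ℂ) * om_cube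
  rw [h1, v.map_neg, map_mul, map_pow, z_pow (by norm_num) om_cube, one_pow, one_mul, om_val h3]

/-- the difference of two roots is large -/
lemma big {P Q : ℂ} (hP : P ^ 3 + 1 = 0) (ht : v (4 * Q ^ 3 + 1) ≤ v lam ^ 3) :
    v lam < v (P - Q) := by
  have hl := lam_lt h3
  have hP1 : v P = 1 := z_pow (k := 6) (by norm_num) (by linear_combination (P ^ 3 - 1) * hP)
  have h4 : v 4 = 1 := by
    have : (4 : ℂ) = 2 * 2 := by norm_num
    rw [this, map_mul, v_two h3, one_mul]
  have h5 : v ((P - Q) * ((om * P - Q) * (om ^ 2 * P - Q))) = v 3 := by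
    have e1 : (P - Q) * ((om * P - Q) * (om ^ 2 * P - Q)) = -(1 + Q ^ 3) := by
      linear_combination (om ^ 3) * hP + (Q ^ 2 * P - P ^ 2 * Q * om) * om_sq + (-1) * om_cube
    have e2 : v (4 * (1 + Q ^ 3)) = v 3 := by
      have e4 : 4 * (1 + Q ^ 3) = (4 * Q ^ 3 + 1) + 3 := by ring
      rw [e4]
      exact add_ne h3 ht
    rw [e1, v.map_neg]
    rwa [map_mul, h4, one_mul] at e2
  by_contra hcon
  push Not at hcon
  have h6 : v (om * P - Q) ≤ v lam := by
    have e : om * P - Q = (P - Q) - (1 - om) * P := by ring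
    rw [e]
    refine v.map_sub_le hcon ?_
    rw [map_mul, hP1, mul_one, om_val h3]
  have h7 : v (om ^ 2 * P - Q) ≤ v lam := by
    have e : om ^ 2 * P - Q = (P - Q) - (1 - om ^ 2) * P := by ring
    rw [e]
    refine v.map_sub_le hcon ?_
    rw [map_mul, hP1, mul_one, om_val2 h3]
  rw [map_mul, map_mul, ← sq_three] at h5
  have h8 : v (P - Q) * (v (om * P - Q) * v (om ^ 2 * P - Q)) ≤ v lam * (v lam * v lam) :=
    mul_le_mul' hcon (mul_le_mul' h6 h7)
  rw [h5] at h8
  have h9 : v lam * (v lam * v lam) < 1 * (v lam * v lam) :=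
    mul_lt_mul_of_pos_right hl (mul_pos lam_pos lam_pos)
  rw [one_mul] at h9
  exact absurd h8 (not_le.2 h9)

/-- the correction is small -/
lemma del {P Q : ℂ} (hP : P ^ 3 + 1 = 0) (ht : v (4 * Q ^ 3 + 1) ≤ v lam ^ 3) :
    v (3 / (2 * P ^ 2 * (P - Q))) < v lam := by
  have h1 := big h3 hP ht
  have hP1 : v P = 1 := z_pow (k := 6) (by norm_num) (by linear_combination (P ^ 3 - 1) * hP)
  have h2 : 0 < v (P - Q) := lt_of_le_of_lt zero_le h1
  rw [map_div₀, map_mul, map_mul, map_pow, hP1, one_pow, mul_one, v_two h3, one_mul,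
    div_lt_iff₀ h2, ← sq_three]
  exact mul_lt_mul_of_pos_left h1 lam_pos

end val

/-! ### the families -/

/-- the family with all the data -/
structure Fy (v : Valuation ℂ Γ) (π : ι → eis) (X : ι → eis → ℂ) (z : ℂ)
    (a : ι → ι → ZMod 3) (b : ι → ZMod 3) : Prop extends Fm π X where
  three : ∀ i, IsCoprime (3 : eis) (π i)
  max : ∀ i, (sp (π i)).IsMaximal
  val : ∀ i x, x ∉ sp (π i) → ∃ n : ℕ, X i x = z ^ n
  cub : ∀ i j, i ≠ j → ∃ n : ℕ, X j (π i) = z ^ n ∧ (n : ZMod 3) = a i j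
  lin : ∀ i, v ((π i : ℂ) - 1) ≤ v 3
  card : ∀ i, v ((Nat.card (eis ⧸ sp (π i)) : ℂ) - 1) ≤ v 3
  dig : ∀ i, Cg v (((π i : ℂ) - 1) / 3 - ((Nat.card (eis ⧸ sp (π i)) : ℂ) - 1) / 3) (b i)

variable {π : ι → eis} {X : ι → eis → ℂ} {z : ℂ} {a : ι → ι → ZMod 3} {b : ι → ZMod 3}

lemma sum_ind (hfin : ∀ q : eis, q ≠ 0 → Finite (eis ⧸ sp q)) (h : Fy v π X z a b) (i : ι) :
    Sm (π i) (fun x => ind (π i) x - X i x) = (Nat.card (eis ⧸ sp (π i)) : ℂ) - 1 := by
  classical
  have : Fintype (eis ⧸ sp (π i)) := @Fintype.ofFinite _ (hfin _ (h.ne i))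
  have h1 : Sm (π i) (fun x => ind (π i) x - X i x) = Sm (π i) (ind (π i)) - Sm (π i) (X i) :=
    Finset.sum_sub_distrib _ _
  rw [h1, h.sum, sub_zero, Sm_eq]
  have h2 : ∀ x : eis ⧸ sp (π i), ind (π i) x.out = 1 - (if x = 0 then 1 else 0) := by
    intro x
    by_cases hx : x = 0
    · rw [if_pos hx, sub_self]
      apply ind_mem
      rw [hx]
      have := out_mk (sp (π i)) (0 : eis)
      rw [map_zero, zero_sub] at this
      exact neg_mem_iff.1 this
    · rw [if_neg hx, sub_zero, ind_notMem (out_notMem hx)]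
  rw [Finset.sum_congr rfl fun x _ => h2 x, Finset.sum_sub_distrib, Finset.sum_const,
    Finset.sum_ite_eq' , if_pos (Finset.mem_univ _), Finset.card_univ, nsmul_eq_mul, mul_one,
    Nat.card_eq_fintype_card]

lemma Fy.cop_iff (h : Fy v π X z a b) {S : Finset ι} {x : eis} :
    IsCoprime x (cc π S) ↔ ∀ i ∈ S, x ∉ sp (π i) := by
  constructor
  · intro hx i hi hxi
    have h1 : IsCoprime x (π i) := by
      have h2 : cc π S = π i * cc π (S.erase i) := by
        rw [← cc_insert (Finset.notMem_erase i S), Finset.insert_erase hi]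
      rw [h2] at hx
      exact hx.of_mul_right_left
    exact notMem_of_cop (h.max i).ne_top h1 hxi
  · intro hx
    refine IsCoprime.prod_right fun i hi => ?_
    obtain ⟨y, t, ht, hyt⟩ := (h.max i).exists_inv (hx i hi)
    obtain ⟨w, hw⟩ := Ideal.mem_span_singleton'.1 ht
    exact ⟨y, w, by rw [hw]; exact hyt⟩

section est

variable (h3 : v 3 < 1) (hC : Cur L Ω)
  (hfin : ∀ q : eis, q ≠ 0 → Finite (eis ⧸ sp q)) (h : Fy v π X z a b) (hz : Zt v z)
  (hzl : v (1 - z) = v lam)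

lemma Fy.three_cc (h : Fy v π X z a b) (S : Finset ι) : IsCoprime (3 : eis) (cc π S) :=
  IsCoprime.prod_right fun i _ => h.three i

lemma Fy.cc_top (h : Fy v π X z a b) {S : Finset ι} (hS : S.Nonempty) :
    sp (cc π S) ≠ ⊤ := by
  obtain ⟨i, hi⟩ := hS
  intro h1
  apply (h.max i).ne_top
  rw [Ideal.eq_top_iff_one] at h1 ⊢
  exact cc_mem hi h1

/-- the products of `1 - X i x` -/
noncomputable def PX (π : ι → eis) (X : ι → eis → ℂ) (S : Finset ι) (x : eis) : ℂ :=
  ∏ i ∈ S, (ind (π i) x - X i x)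

lemma PX_zero (h : Fy v π X z a b) {S : Finset ι} {x : eis} (hx : ¬ IsCoprime x (cc π S)) :
    PX π X S x = 0 := by
  rw [h.cop_iff] at hx
  push Not at hx
  obtain ⟨i, hi, hxi⟩ := hx
  refine Finset.prod_eq_zero hi ?_
  rw [ind_mem hxi, h.zero i x hxi, sub_zero]

include hz in
lemma PX_le (h : Fy v π X z a b) {S : Finset ι} (x : eis) :
    v (PX π X S x) ≤ v (1 - z) ^ S.card := by
  classical
  by_cases hx : IsCoprime x (cc π S)
  · rw [h.cop_iff] at hx
    unfold PX
    rw [map_prod]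
    refine Finset.prod_le_pow_card _ _ _ fun i hi => ?_
    obtain ⟨n, hn⟩ := h.val i x (hx i hi)
    rw [ind_notMem (hx i hi), hn]
    exact hz.pow_le n
  · rw [PX_zero h hx, map_zero]
    exact zero_le

include h hfin in
lemma sum_PX (S : Finset ι) : Sm (cc π S) (fun x => PX π X S x) =
    ∏ i ∈ S, ((Nat.card (eis ⧸ sp (π i)) : ℂ) - 1) := by
  have h3 := Sm_prod hfin h.ne h.cop (g := fun i x => ind (π i) x - X i x)
    (fun i x y hxy => by
      show ind (π i) x - X i x = ind (π i) y - X i y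
      rw [ind_per hxy, h.per i x y hxy]) S
  rw [Finset.prod_congr rfl fun i _ => sum_ind hfin h i] at h3
  exact h3

variable [Fintype (eis ⧸ (sp 3 : Ideal eis))]

/-- the sum for the three characters -/
noncomputable def SQ (L : PeriodPair) (Ω : ℂ)
    (π : ι → eis) (X : ι → eis → ℂ) (T : Finset ι) : ℂ :=
  ∑ j : Fin 3, SP L Ω 3 (ej j) (Ef L Ω j) π X T

/-- the function -/
noncomputable def dl (L : PeriodPair) (Ω : ℂ) (u : ℂ) : ℂ :=
  3 / (2 * ℘[L] (Ω / 3) ^ 2 * (℘[L] (Ω / 3) - ℘[L] u))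

include hC in
lemma kap_ne : kap L Ω ≠ 0 := Pool.Agent.Y715.T.Ana.kap_ne hC

include h3 hC hfin h hz hzl in
/-- the estimate -/
theorem est {S : Finset ι} (hS : S.Nonempty) :
    v (Sm (cc π S) (fun x => PX π X S x * dl L Ω (Ω * x / cc π S))) < v lam ^ (S.card + 1) := by
  classical
  have hc := h.cc_ne S
  have hct := h.cc_top hS
  have hD := dat' hC hc (h.three_cc S) hct hfin
  have : Fintype (eis ⧸ sp (cc π S)) := @Fintype.ofFinite _ (hfin _ hc)
  rw [Sm_eq]
  have hpos : v lam ^ (S.card + 1) ≠ 0 := pow_ne_zero _ lam_ne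
  refine v.map_sum_lt hpos fun q _ => ?_
  by_cases hq : IsCoprime q.out (cc π S)
  · have hq' : q.out ∉ sp (cc π S) := notMem_of_cop hct hq
    have hu : Ω * q.out / cc π S ∉ L.lattice := by rwa [div_mem_iff hC.lat hc]
    have h4 := X_le h3 hD ⟨q.out, hq⟩
    have h5 : XX L Ω (cc π S) ⟨q.out, hq⟩ = 4 * ℘[L] (Ω * q.out / cc π S) ^ 3 + 1 := hC.ode hu
    rw [h5] at h4
    have h6 := del h3 (by have := hC.x0; linear_combination this) h4
    rw [map_mul, pow_succ]
    have h7 := PX_le hz h (S := S) q.out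
    rw [hzl] at h7
    calc v (PX π X S q.out) * v (dl L Ω (Ω * q.out / cc π S)) ≤
        v lam ^ S.card * v (dl L Ω (Ω * q.out / cc π S)) := mul_le_mul' h7 le_rfl
      _ < v lam ^ S.card * v lam := mul_lt_mul_of_pos_left h6 (pow_pos lam_pos _)
  · rw [PX_zero h hq, zero_mul, map_zero]
    exact pow_pos lam_pos _

variable (h3π : ∀ i, π i - 1 ∈ (sp 3 : Ideal eis))

include hC hfin h h3π in
/-- the identity -/
theorem idn {S : Finset ι} (hS : S.Nonempty) :
    kap L Ω * (∏ i ∈ S, ((Nat.card (eis ⧸ sp (π i)) : ℂ) - 1) +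
      Sm (cc π S) (fun x => PX π X S x * dl L Ω (Ω * x / cc π S))) =
      ∑ T ∈ S.powerset, (-1) ^ T.card * ((∏ i ∈ S \ T, ((π i : ℂ) - XT X T (π i))) *
        SQ L Ω π X T) := by
  have hfπ : ∀ i, IsCoprime (3 : eis) (π i) := h.three
  have hP := hC.x0
  have hP0 : ℘[L] (Ω / 3) ≠ 0 := by
    intro h4
    rw [h4] at hP
    norm_num at hP
  rw [← sum_PX hfin h S, ← Sm_add, ← Sm_mul_left]
  have h4 : ∑ T ∈ S.powerset, (-1) ^ T.card * ((∏ i ∈ S \ T, ((π i : ℂ) - XT X T (π i))) *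
        SQ L Ω π X T) = ∑ j : Fin 3, ∑ T ∈ S.powerset, (-1) ^ T.card *
          ((∏ i ∈ S \ T, ((π i : ℂ) - XT X T (π i))) * SP L Ω 3 (ej j) (Ef L Ω j) π X T) := by
    rw [Finset.sum_comm]
    refine Finset.sum_congr rfl fun T _ => ?_
    unfold SQ
    rw [Finset.mul_sum, Finset.mul_sum]
  rw [h4, Finset.sum_congr rfl fun j _ => (Pool.Agent.Y715.Idn.main hC.lat hfin three_ne h.toFm hfπ (eo_j j)
    (fun i => ej_prim j (h3π i)) (lim_j hC j) S).symm]
  unfold Sm
  rw [Finset.sum_comm]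
  refine Finset.sum_congr rfl fun x _ => ?_
  show kap L Ω * (PX π X S x + PX π X S x * dl L Ω (Ω * x / cc π S)) =
    ∑ j : Fin 3, PX π X S x * Ph L Ω 3 (ej j) (Ef L Ω j) (cc π S) x
  rw [← Finset.mul_sum]
  by_cases hx : IsCoprime x (cc π S)
  · have hx' : x ∉ sp (cc π S) := notMem_of_cop (h.cc_top hS) hx
    rw [Finset.sum_congr rfl fun j _ => Ph_of_notMem hx', Finset.sum_add_distrib, HH_tot hC,
      Fin.sum_univ_three]
    unfold Ef
    rw [if_pos rfl, if_neg (by decide), if_neg (by decide)]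
    unfold dl kap
    field_simp
    ring
  · rw [PX_zero h hx]
    ring

/-- the normalized sums -/
noncomputable def sT (L : PeriodPair) (Ω : ℂ)
    (π : ι → eis) (X : ι → eis → ℂ) (z : ℂ) (T : Finset ι) : ℂ :=
  SQ L Ω π X T / (kap L Ω * (3 * (1 - z) ^ (T.card - 1)))

lemma SQ_empty (hfin : ∀ q : eis, q ≠ 0 → Finite (eis ⧸ sp q)) :
    SQ L Ω π X ∅ = kap L Ω := by
  unfold SQ
  rw [Finset.sum_congr rfl fun j _ => SP_empty hfin, Fin.sum_univ_three]
  unfold Ef
  rw [if_pos rfl, if_neg (by decide), if_neg (by decide)]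
  ring

include h3 hC hfin h hz hzl h3π in
/-- **The sums modulo the maximal ideal.** -/
theorem sT_cg [Fintype ι] (S : Finset ι) (hS : S.Nonempty) : Cg v (sT L Ω π X z S) (D a b S) := by
  classical
  induction S using Finset.strongInduction with
  | H S ih =>
  have hκ := kap_ne hC
  have hz1 := hz.ne
  have hl0 : v lam ≠ 0 := lam_ne
  have hl1 := lam_lt h3
  obtain ⟨m, hm⟩ : ∃ m, S.card = m + 1 := ⟨S.card - 1, by
    have := Finset.card_pos.2 hS
    omega⟩
  have hid := idn hC hfin h h3π hS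
  have hest := est h3 hC hfin h hz hzl hS
  set R : ℂ := Sm (cc π S) (fun x => PX π X S x * dl L Ω (Ω * x / cc π S)) with hR
  set B : ℂ := ∏ i ∈ S, ((Nat.card (eis ⧸ sp (π i)) : ℂ) - 1) with hB
  set N : ℂ := kap L Ω * (3 * (1 - z) ^ m) with hN
  have hN0 : N ≠ 0 := mul_ne_zero hκ (mul_ne_zero (by norm_num) (pow_ne_zero _ hz1))
  have hvN : v (3 * (1 - z) ^ m) = v lam ^ (m + 2) := by
    rw [map_mul, map_pow, hzl, ← sq_three, ← pow_two, ← pow_add]
    congr 1
    omega
  -- the terms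
  set E : Finset ι → ℂ := fun T => (∏ i ∈ S \ T, ((π i : ℂ) - XT X T (π i))) *
    SQ L Ω π X T / N with hE
  have hsum : ∑ T ∈ S.powerset, (-1) ^ T.card * E T = (B + R) / (3 * (1 - z) ^ m) := by
    have h4 : ∑ T ∈ S.powerset, (-1) ^ T.card * E T = (∑ T ∈ S.powerset, (-1) ^ T.card *
        ((∏ i ∈ S \ T, ((π i : ℂ) - XT X T (π i))) * SQ L Ω π X T)) / N := by
      rw [Finset.sum_div]
      exact Finset.sum_congr rfl fun T _ => by rw [hE]; ring
    rw [h4, ← hid, hN]
    field_simp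
  have hRs : v (R / (3 * (1 - z) ^ m)) < 1 := by
    rw [map_div₀, hvN, div_lt_one₀ (pow_pos lam_pos _)]
    rw [hm] at hest
    exact hest
  have hES : E S = sT L Ω π X z S := by
    rw [hE]
    show (∏ i ∈ S \ S, _) * _ / N = _
    unfold sT
    rw [Finset.sdiff_self, Finset.prod_empty, one_mul, hm, Nat.add_sub_cancel]
  have hE0' : E ∅ = (∏ i ∈ S, ((π i : ℂ) - 1)) / (3 * (1 - z) ^ m) := by
    rw [hE]
    show (∏ i ∈ S \ ∅, _) * _ / N = _
    rw [SQ_empty hfin, Finset.sdiff_empty, hN]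
    unfold XT
    simp only [Finset.prod_empty]
    field_simp
  by_cases h1 : S.card = 1
  · -- one prime
    obtain ⟨i, rfl⟩ := Finset.card_eq_one.1 h1
    have hm0 : m = 0 := by omega
    have hp : ({i} : Finset ι).powerset = {∅, {i}} := by
      ext T
      rw [Finset.mem_powerset, Finset.subset_singleton_iff, Finset.mem_insert,
        Finset.mem_singleton]
    rw [hp, Finset.sum_pair (Finset.singleton_ne_empty i).symm, Finset.card_empty,
      Finset.card_singleton, pow_zero, one_mul, pow_one, hES, hE0', hB, Finset.prod_singleton,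
      Finset.prod_singleton, hm0, pow_zero, mul_one] at hsum
    rw [D_one]
    refine Cg.of_sub ?_ (h.dig i)
    have e : sT L Ω π X z {i} - (((π i : ℂ) - 1) / 3 -
        ((Nat.card (eis ⧸ sp (π i)) : ℂ) - 1) / 3) = -(R / (3 * (1 - z) ^ m)) := by
      rw [hm0, pow_zero, mul_one]
      linear_combination -hsum
    rw [e, v.map_neg]
    exact hRs
  · have hm0 : m ≠ 0 := by omega
    have hBs : v (B / (3 * (1 - z) ^ m)) < 1 := by
      rw [map_div₀, hvN, div_lt_one₀ (pow_pos lam_pos _), hB, map_prod]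
      have h4 : ∏ i ∈ S, v ((Nat.card (eis ⧸ sp (π i)) : ℂ) - 1) ≤ (v 3) ^ S.card :=
        Finset.prod_le_pow_card _ _ _ fun i _ => h.card i
      refine h4.trans_lt ?_
      rw [hm, ← sq_three, ← pow_two, ← pow_mul]
      exact pow_lt_pow_right_of_lt_one₀ lam_pos hl1 (by omega)
    have hsmall : v (∑ T ∈ S.powerset, (-1) ^ T.card * E T) < 1 := by
      rw [hsum, add_div]
      exact v.map_add_lt hBs hRs
    -- the other terms
    have hlz : v (3 : ℂ) < v (1 - z) := hz.three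
    have hET : ∀ T ∈ S.powerset.erase S, T.Nonempty → Cg v (E T)
        (D a b T * ∏ i ∈ S \ T, ∑ j ∈ T, a i j) := by
      intro T hT hTne
      rw [Finset.mem_erase, Finset.mem_powerset] at hT
      have hssub : T ⊂ S := Finset.ssubset_iff_subset_ne.2 ⟨hT.2, hT.1⟩
      have h4 := ih T hssub hTne
      have hTc : 0 < T.card := Finset.card_pos.2 hTne
      have h5 : (S \ T).card + (T.card - 1) = m := by
        rw [Finset.card_sdiff_of_subset hT.2, hm]
        have := Finset.card_le_card hT.2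
        omega
      have h6 : E T = sT L Ω π X z T *
          ∏ i ∈ S \ T, (((π i : ℂ) - XT X T (π i)) / (1 - z)) := by
        rw [hE]
        show (∏ i ∈ S \ T, _) * _ / N = _
        unfold sT
        rw [Finset.prod_div_distrib, Finset.prod_const, hN, ← h5, pow_add]
        field_simp
      rw [h6]
      refine h4.mul h3 (Cg.prod h3 _ fun i hi => ?_)
      rw [Finset.mem_sdiff] at hi
      -- the quotient
      have h7 : ∀ j ∈ T, ∃ n : ℕ, X j (π i) = z ^ n ∧ (n : ZMod 3) = a i j := fun j hj =>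
        h.cub i j fun hij => hi.2 (hij ▸ hj)
      choose! n hn1 hn2 using h7
      have h8 : XT X T (π i) = z ^ (∑ j ∈ T, n j) := by
        unfold XT
        rw [← Finset.prod_pow_eq_pow_sum]
        exact Finset.prod_congr rfl fun j hj => hn1 j hj
      have h9 : ((π i : ℂ) - XT X T (π i)) / (1 - z) =
          ((π i : ℂ) - 1) / (1 - z) + (1 - z ^ (∑ j ∈ T, n j)) / (1 - z) := by
        rw [h8]
        ring
      rw [h9]
      have h10 : (∑ j ∈ T, a i j) = 0 + ((∑ j ∈ T, n j : ℕ) : ZMod 3) := by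
        rw [zero_add]
        push_cast
        exact Finset.sum_congr rfl fun j hj => (hn2 j hj).symm
      rw [h10]
      refine (Cg.zero ?_).add h3 (Zt.quot h3 hz _)
      rw [map_div₀]
      have h12 : 0 < v (1 - z) := zero_lt_iff.2 (by rwa [Ne, map_eq_zero])
      rw [div_lt_one₀ h12]
      exact (h.lin i).trans_lt hlz
    have hE0 : Cg v (E ∅) 0 := by
      rw [hE0']
      apply Cg.zero
      rw [map_div₀, hvN, div_lt_one₀ (pow_pos lam_pos _), map_prod]
      have h4 : ∏ i ∈ S, v ((π i : ℂ) - 1) ≤ (v 3) ^ S.card :=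
        Finset.prod_le_pow_card _ _ _ fun i _ => h.lin i
      refine h4.trans_lt ?_
      rw [hm, ← sq_three, ← pow_two, ← pow_mul]
      exact pow_lt_pow_right_of_lt_one₀ lam_pos hl1 (by omega)
    -- conclusion
    have hSmem : S ∈ S.powerset := Finset.mem_powerset_self S
    have hsplit := Finset.add_sum_erase S.powerset (fun T => (-1) ^ T.card * E T) hSmem
    have hrest : Cg v (∑ T ∈ S.powerset.erase S, (-1) ^ T.card * E T)
        (-((-1) ^ S.card * D a b S)) := by
      have h4 : -((-1) ^ S.card * D a b S) = ∑ T ∈ S.powerset.erase S, (-1) ^ T.card *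
          (if T = ∅ then 0 else D a b T * ∏ i ∈ S \ T, ∑ j ∈ T, a i j) := by
        have h6 := D_rec a b S (by omega)
        rw [← Finset.add_sum_erase _ _ hSmem, Finset.sdiff_self, Finset.prod_empty, mul_one] at h6
        have h7 : -((-1) ^ S.card * D a b S) =
            ∑ T ∈ S.powerset.erase S, (-1) ^ T.card * (D a b T * ∏ i ∈ S \ T, ∑ j ∈ T, a i j) := by
          linear_combination -h6
        rw [h7]
        refine Finset.sum_congr rfl fun T hT => ?_
        split_ifs with h8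
        · rw [h8]
          unfold D
          rw [Finset.sum_empty, zero_mul]
        · rfl
      rw [h4]
      refine Cg.sum h3 _ fun T hT => Cg.sign h3 ?_ _
      split_ifs with h5
      · rw [h5]
        exact hE0
      · exact hET T hT (Finset.nonempty_iff_ne_empty.2 h5)
    have hES2 : Cg v ((-1) ^ S.card * E S) ((-1) ^ S.card * D a b S) := by
      have h4 : (-1) ^ S.card * E S = (∑ T ∈ S.powerset, (-1) ^ T.card * E T) -
          ∑ T ∈ S.powerset.erase S, (-1) ^ T.card * E T := by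
        rw [← hsplit]
        ring
      rw [h4]
      have h5 := hrest.neg h3
      rw [neg_neg] at h5
      refine Cg.of_sub (t := -(∑ T ∈ S.powerset.erase S, (-1) ^ T.card * E T)) ?_ h5
      rw [sub_neg_eq_add, sub_add_cancel]
      exact hsmall
    have h4 := hES2.sign h3 S.card
    rw [← mul_assoc, ← mul_pow, neg_one_mul, neg_neg, one_pow, one_mul, hES, ← mul_assoc,
      ← mul_pow, neg_one_mul, neg_neg, one_pow, one_mul] at h4
    exact h4

end est

end Pool.Agent.Y703.CT.Ana
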