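import Pool.Agent.Y703.CT.StmD
import Pool.Agent.Y703.CT.Ana

/-!
# The valuation of the central value
-/

set_option autoImplicit false

open scoped Classical PeriodPair

namespace Pool.Agent.Y703.CT

open Pool.Agent.Y692.QS (Ei w nr toC)
open Pool.Agent.Y715.T.Rec (cs)
open Pool.Agent.Y715.T.RecG (Pq)
open Pool.Agent.Y696 (Cur eis psi om)
open Pool.Agent.Y715.T.Rs (eq0)
open Pool.Agent.W192.HK (sp)
open Pool.Agent.TH936.CM
open Pool.Agent.TH936.PU hiding v_int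
open Pool.Agent.Y715.Idn Pool.Agent.Y715.Dist
open Pool.Agent.Y715.T.Three (lam lam_lt lam_ne lam_ne' sq_three v_two)
open Pool.Agent.Y715.T.Cg (Cg Zt zt_of_prim z_pow)
open Pool.Agent.Y715.Two (v_nat v_int v_unit v_mul_le_of)

lemma re_one : QuadraticAlgebra.re (1 : Ei) = 1 := rfl

lemma im_one : QuadraticAlgebra.im (1 : Ei) = 0 := rfl

/-- the linear term -/
def rq (α : Ei) : ZMod 3 := (((α.re - 1) / 3 + α.im / 3 : ℤ) : ZMod 3)

lemma ex_q {α : Ei} (h : (3 : Ei) ∣ α - 1) : ∃ x y : ℤ, α = 1 + 3 * ⟨x, y⟩ ∧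
    rq α = ((x + y : ℤ) : ZMod 3) := by
  obtain ⟨⟨x, y⟩, hq⟩ := h
  have e : α = 1 + 3 * ⟨x, y⟩ := by rw [← hq]; ring
  refine ⟨x, y, e, ?_⟩
  have h3 : (3 : Ei) = ⟨3, 0⟩ := rfl
  have hr : α.re = 1 + 3 * x := by
    rw [e, h3]
    simp [re_one]
  have hi : α.im = 3 * y := by
    rw [e, h3]
    simp [im_one]
  unfold rq
  rw [hr, hi]
  have e1 : (1 + 3 * x - 1) / 3 = x := by omega
  have e2 : 3 * y / 3 = y := by omega
  rw [e1, e2]

lemma nr_form (x y : ℤ) : nr (1 + 3 * (⟨x, y⟩ : Ei)) = 1 + 3 * (2 * x - y) + 9 * nr (⟨x, y⟩ : Ei) := by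
  have h3 : (3 : Ei) = ⟨3, 0⟩ := rfl
  have e : (1 + 3 * (⟨x, y⟩ : Ei)) = ⟨1 + 3 * x, 3 * y⟩ := by
    rw [h3]
    ext <;> simp [re_one, im_one]
  rw [e]
  unfold Pool.Agent.Y692.QS.nr
  simp only
  ring

lemma nine_iff {α : Ei} (h : (3 : Ei) ∣ α - 1) : (9 : ℤ) ∣ nr α - 1 ↔ rq α = 0 := by
  obtain ⟨x, y, e, hr⟩ := ex_q h
  rw [hr, e, nr_form, ZMod.intCast_zmod_eq_zero_iff_dvd]
  constructor
  · rintro ⟨c, hc⟩
    push_cast
    have : (3 : ℤ) ∣ 2 * x - y := ⟨c * 1 - nr (⟨x, y⟩ : Ei), by linarith⟩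
    omega
  · intro h1
    push_cast at h1
    obtain ⟨c, hc⟩ : (3 : ℤ) ∣ 2 * x - y := by omega
    exact ⟨c + nr (⟨x, y⟩ : Ei), by rw [hc]; ring⟩

lemma rq_mul {α β : Ei} (hα : (3 : Ei) ∣ α - 1) (hβ : (3 : Ei) ∣ β - 1) :
    (3 : Ei) ∣ α * β - 1 ∧ rq (α * β) = rq α + rq β := by
  have h1 : (3 : Ei) ∣ α * β - 1 := by
    have e : α * β - 1 = (α - 1) * β + (β - 1) := by ring
    rw [e]
    exact dvd_add (Dvd.dvd.mul_right hα _) hβ
  refine ⟨h1, ?_⟩
  obtain ⟨x, y, e, hr⟩ := ex_q hα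
  obtain ⟨x', y', e', hr'⟩ := ex_q hβ
  obtain ⟨X, Y, E, hR⟩ := ex_q h1
  rw [hr, hr', hR]
  have h2 : (⟨X, Y⟩ : Ei) = ⟨x, y⟩ + ⟨x', y'⟩ + 3 * (⟨x, y⟩ * ⟨x', y'⟩) := by
    have h3 : (3 : Ei) ≠ 0 := by decide
    apply mul_left_cancel₀ h3
    have : α * β = 1 + 3 * ⟨X, Y⟩ := E
    rw [e, e'] at this
    linear_combination -this
  have h3 : (3 : Ei) = ⟨3, 0⟩ := rfl
  rw [h3] at h2
  have hx := congrArg QuadraticAlgebra.re h2
  have hy := congrArg QuadraticAlgebra.im h2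
  simp at hx hy
  rw [hx, hy, ← Int.cast_add, ← sub_eq_zero, ← Int.cast_sub, ZMod.intCast_zmod_eq_zero_iff_dvd]
  push_cast
  exact ⟨x * x' - y * y' + (x * y' + y * x' - y * y'), by ring⟩

lemma rq_pow {α : Ei} (hα : (3 : Ei) ∣ α - 1) (n : ℕ) :
    (3 : Ei) ∣ α ^ n - 1 ∧ rq (α ^ n) = n * rq α := by
  induction n with
  | zero =>
    rw [pow_zero, sub_self, Nat.cast_zero, zero_mul]
    exact ⟨dvd_zero _, by decide⟩
  | succ n ih =>
    obtain ⟨h1, h2⟩ := rq_mul ih.1 hα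
    rw [pow_succ]
    refine ⟨h1, ?_⟩
    rw [h2, ih.2]
    push_cast
    ring

lemma rq_prod {J : Type} (S : Finset J) {f : J → Ei} (hf : ∀ j, (3 : Ei) ∣ f j - 1) :
    (3 : Ei) ∣ ∏ j ∈ S, f j - 1 ∧ rq (∏ j ∈ S, f j) = ∑ j ∈ S, rq (f j) := by
  induction S using Finset.induction_on with
  | empty =>
    rw [Finset.prod_empty, sub_self, Finset.sum_empty]
    exact ⟨dvd_zero _, by decide⟩
  | insert i S hi ih =>
    obtain ⟨h1, h2⟩ := rq_mul (hf i) ih.1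
    rw [Finset.prod_insert hi, Finset.sum_insert hi]
    refine ⟨h1, ?_⟩
    rw [h2, ih.2]

lemma pD_prim {J : Type} [Fintype J] {π : J → Ei} {e : J → ZMod 3} (h : Dt π e) :
    (3 : Ei) ∣ pD π e - 1 ∧ rq (pD π e) = ∑ j, e j * rq (π j) := by
  obtain ⟨h1, h2⟩ := rq_prod Finset.univ (f := fun j => π j ^ (e j).val)
    (fun j => (rq_pow (h.pq j).three _).1)
  refine ⟨h1, ?_⟩
  unfold pD
  rw [h2]
  refine Finset.sum_congr rfl fun j _ => ?_
  rw [(rq_pow (h.pq j).three _).2, ZMod.natCast_zmod_val]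

/-- the condition modulo nine -/
lemma sum_ne_iff {J : Type} [Fintype J] {π : J → Ei} {e : J → ZMod 3} (h : Dt π e) :
    ¬ (9 : ℤ) ∣ nr (pD π e) - 1 ↔ ∑ j, e j * rq (π j) ≠ 0 := by
  rw [nine_iff (pD_prim h).1, (pD_prim h).2]

lemma Dt.neg {J : Type} {π : J → Ei} {e : J → ZMod 3} (h : Dt π e) : Dt π (fun j => -e j) :=
  ⟨h.pq, h.nd, fun j => neg_ne_zero.2 (h.e0 j)⟩

lemma Ker.neg {J : Type} [Fintype J] {π : J → Ei} {e : J → ZMod 3} (h : Ker π e) :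
    Ker π (fun j => -e j) := by
  intro v hv
  refine h v fun j => ?_
  have h1 := hv j
  rw [← neg_eq_zero, ← Finset.sum_neg_distrib]
  rw [← h1]
  exact Finset.sum_congr rfl fun i _ => by ring

lemma sum_neg_ne {J : Type} [Fintype J] {π : J → Ei} {e : J → ZMod 3}
    (h : ∑ j, e j * rq (π j) ≠ 0) : ∑ j, -e j * rq (π j) ≠ 0 := by
  intro h1
  apply h
  rw [← neg_eq_zero, ← Finset.sum_neg_distrib, ← h1]
  exact Finset.sum_congr rfl fun i _ => by ring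

/-! ### the functions -/

section Xc

variable {J : Type} {π : J → Ei} {e : J → ZMod 3}

lemma mem_iff (p : Ei) (x : eis) : x ∈ (sp (eq0 p) : Ideal eis) ↔ p ∣ eq0.symm x := by
  rw [Ideal.mem_span_singleton]
  constructor
  · intro h
    have := map_dvd eq0.symm h
    rwa [RingEquiv.symm_apply_apply] at this
  · intro h
    have := map_dvd eq0 h
    rwa [RingEquiv.apply_symm_apply] at this

lemma toC_w_add (c d : ZMod 3) : toC w ^ (c + d).val = toC w ^ c.val * toC w ^ d.val := by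
  rw [← map_pow, ← map_pow, ← map_pow, ← map_mul, Pool.Agent.Y715.T.Rec.w_add]

lemma Xc_of {i : J} {x : eis} (h : ¬ π i ∣ eq0.symm x) :
    Xc π e i x = toC w ^ (-(e i * cs (π i) (eq0.symm x))).val := by
  unfold Xc
  rw [if_neg h]

lemma Xc_zero {i : J} {x : eis} (h : π i ∣ eq0.symm x) : Xc π e i x = 0 := by
  unfold Xc
  rw [if_pos h]

lemma Xc_per (h : Dt π e) (i : J) (x y : eis) (hxy : x - y ∈ (sp (eq0 (π i)) : Ideal eis)) :
    Xc π e i x = Xc π e i y := by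
  rw [mem_iff, map_sub] at hxy
  by_cases hx : π i ∣ eq0.symm x
  · have hy : π i ∣ eq0.symm y := (dvd_iff_dvd_of_dvd_sub hxy).1 hx
    rw [Xc_zero hx, Xc_zero hy]
  · have hy : ¬ π i ∣ eq0.symm y := fun h1 => hx ((dvd_iff_dvd_of_dvd_sub hxy).2 h1)
    rw [Xc_of hx, Xc_of hy,
      Pool.Agent.Y715.T.RecG.cs_congr (h.pq i).prime (h.pq i).norm hx hxy]

lemma Xc_mul (h : Dt π e) (i : J) (x y : eis) :
    Xc π e i (x * y) = Xc π e i x * Xc π e i y := by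
  have hp := (h.pq i).prime
  by_cases hx : π i ∣ eq0.symm x
  · rw [Xc_zero hx, Xc_zero (by rw [map_mul]; exact hx.mul_right _), zero_mul]
  · by_cases hy : π i ∣ eq0.symm y
    · rw [Xc_zero hy, Xc_zero (by rw [map_mul]; exact hy.mul_left _), mul_zero]
    · have hxy : ¬ π i ∣ eq0.symm (x * y) := by
        rw [map_mul]
        exact fun h1 => (hp.dvd_or_dvd h1).elim hx hy
      rw [Xc_of hx, Xc_of hy, Xc_of hxy, ← toC_w_add, map_mul,
        Pool.Agent.Y715.T.RecG.cs_mul hp (h.pq i).norm hx hy]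
      congr 2
      ring

lemma fin_quot (p : eis) (hp : p ≠ 0) : Finite (eis ⧸ (sp p : Ideal eis)) :=
  Pool.Agent.Y715.T.LF.fin_quot p hp

lemma eq0_ne {p : Ei} (hp : Prime p) : eq0 p ≠ 0 := by
  rw [Ne, map_eq_zero_iff _ eq0.injective]
  exact hp.ne_zero

/-- the symbol is not trivial -/
lemma ex_ne {p : Ei} (h : Pq p) : ∃ g : Ei, ¬ p ∣ g ∧ cs p g ≠ 0 := by
  let _ := Pool.Agent.Y715.T.Rec.fld h.prime
  let _ := Pool.Agent.Y715.T.Rec.ftp h.prime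
  have h1 := Pool.Agent.Y715.T.Cub.chi_ne_one (Pool.Agent.Y715.T.Rec.mw p)
    (Pool.Agent.Y715.T.RecG.mk_three h.norm)
  rw [MulChar.ne_one_iff] at h1
  obtain ⟨a, ha⟩ := h1
  obtain ⟨g, hg⟩ := Ideal.Quotient.mk_surjective (a : Pool.Agent.Y715.T.Rec.FF p)
  have hg0 : ¬ p ∣ g := by
    intro h2
    have h3 := (Pool.Agent.Y715.T.Rec.mk_eq_zero g).2 h2
    have h4 : (a : Pool.Agent.Y715.T.Rec.FF p) = 0 := by rw [← hg]; exact h3
    exact a.ne_zero h4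
  refine ⟨g, hg0, fun h2 => ha ?_⟩
  have h5 := Pool.Agent.Y715.T.RecG.cs_chi h.prime h.norm hg0
  rw [h2, ZMod.val_zero, pow_zero] at h5
  rw [← hg]
  exact h5

lemma Xc_sum (h : Dt π e) (i : J) : Sm (eq0 (π i)) (Xc π e i) = 0 := by
  have hp := h.pq i
  obtain ⟨g, hg0, hg⟩ := ex_ne hp
  have hfin := fin_quot _ (eq0_ne hp.prime)
  have : Fintype (eis ⧸ (sp (eq0 (π i)) : Ideal eis)) := Fintype.ofFinite _
  have hcop : IsCoprime (eq0 (π i)) (eq0 g) := by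
    have h1 : IsCoprime (π i) g := (hp.prime.irreducible.coprime_iff_not_dvd).2 hg0
    obtain ⟨a, b, hab⟩ := h1
    refine ⟨eq0 a, eq0 b, ?_⟩
    rw [← map_mul, ← map_mul, ← map_add, hab, map_one]
  rw [Sm_eq]
  have h1 := sum_mul_bij hcop (F := Xc π e i) (Xc_per h i)
  rw [Finset.sum_congr rfl fun y _ => Xc_mul h i (eq0 g) y.out, ← Finset.mul_sum] at h1
  have h2 : Xc π e i (eq0 g) ≠ 1 := by
    have hg1 : ¬ π i ∣ eq0.symm (eq0 g) := by rwa [RingEquiv.symm_apply_apply]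
    rw [Xc_of hg1, RingEquiv.symm_apply_apply]
    intro h3
    have h4 : toC w ^ (-(e i * cs (π i) g)).val = toC w ^ 0 := by rw [h3, pow_zero]
    have h5 := Pool.Agent.Y715.T.Fin.w_pow_mod h4
    rw [ZMod.natCast_zmod_val, Nat.cast_zero, neg_eq_zero] at h5
    exact (mul_ne_zero (h.e0 i) hg) h5
  have h3 : (Xc π e i (eq0 g) - 1) * ∑ y : eis ⧸ (sp (eq0 (π i)) : Ideal eis),
      Xc π e i y.out = 0 := by linear_combination h1
  exact (mul_eq_zero.1 h3).resolve_left (sub_ne_zero.2 h2)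

lemma cop_eis (h : Dt π e) {i j : J} (hij : i ≠ j) : IsCoprime (eq0 (π i)) (eq0 (π j)) := by
  have h1 : IsCoprime (π i) (π j) :=
    ((h.pq i).prime.irreducible.coprime_iff_not_dvd).2 (h.nd j i (Ne.symm hij))
  obtain ⟨a, b, hab⟩ := h1
  refine ⟨eq0 a, eq0 b, ?_⟩
  rw [← map_mul, ← map_mul, ← map_add, hab, map_one]

theorem Xc_fm (h : Dt π e) : Fm (fun i => eq0 (π i)) (Xc π e) :=
  ⟨fun i => eq0_ne (h.pq i).prime, fun _ _ hij => cop_eis h hij, Xc_per h, Xc_mul h,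
    fun _ _ hx => Xc_zero ((mem_iff _ _).1 hx), Xc_sum h⟩

variable {Γ : Type*} [LinearOrderedCommGroupWithZero Γ] {v : Valuation ℂ Γ}

lemma toC_eq' (x y : ℤ) : toC (⟨x, y⟩ : Ei) = x + y * om := Pool.Agent.Y715.T.Rs.toC_eq _

/-- the entries of the matrix -/
noncomputable def am (π : J → Ei) (e : J → ZMod 3) (i j : J) : ZMod 3 := -(e j * cs (π j) (π i))

/-- the family -/
theorem fy (hv : v 3 < 1) (h : Dt π e) :
    Ana.Fy v (fun i => eq0 (π i)) (Xc π e) (toC w) (am π e) (fun i => -rq (π i)) := by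
  have hex := fun i => ex_q (h.pq i).three
  refine ⟨Xc_fm h, ?_, ?_, ?_, ?_, ?_, ?_, ?_⟩
  · intro i
    obtain ⟨x, y, h1, -⟩ := hex i
    refine ⟨-eq0 ⟨x, y⟩, 1, ?_⟩
    rw [h1, map_add, map_mul, map_one, map_ofNat]
    ring
  · intro i
    exact PrincipalIdealRing.isMaximal_of_irreducible
      ((MulEquiv.prime_iff (eq0 : Ei ≃* eis)).2 (h.pq i).prime).irreducible
  · intro i x hx
    rw [mem_iff] at hx
    exact ⟨_, Xc_of hx⟩
  · intro i j hij
    have h1 : ¬ π j ∣ eq0.symm (eq0 (π i)) := by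
      rw [RingEquiv.symm_apply_apply]
      exact h.nd i j hij
    refine ⟨_, Xc_of h1, ?_⟩
    rw [ZMod.natCast_zmod_val, RingEquiv.symm_apply_apply]
    rfl
  · intro i
    obtain ⟨x, y, h1, -⟩ := hex i
    have e1 : ((eq0 (π i) : eis) : ℂ) - 1 = 3 * (x + y * om) := by
      rw [Pool.Agent.Y715.T.Rs.eq0_coe, h1, map_add, map_mul, map_one, map_ofNat, toC_eq']
      ring
    rw [e1]
    refine v_mul_le_of le_rfl ?_
    refine v.map_add_le (v_int _) (v_mul_le_of (v_int _) ?_)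
    rw [z_pow (by norm_num) Pool.Agent.Y696.om_cube]
  · intro i
    obtain ⟨x, y, h1, -⟩ := hex i
    have e1 : ((Nat.card (eis ⧸ (sp (eq0 (π i)) : Ideal eis)) : ℂ) - 1) =
        3 * ((2 * x - y + 3 * nr (⟨x, y⟩ : Ei) : ℤ) : ℂ) := by
      have h2 : (Nat.card (eis ⧸ (sp (eq0 (π i)) : Ideal eis)) : ℤ) = nr (π i) := by
        rw [← Pool.Agent.Y715.T.Tf.up_sp, Pool.Agent.Y715.T.Tf.card_up,
          Pool.Agent.Y715.T.Rs.card_quo]
      have h3 : (Nat.card (eis ⧸ (sp (eq0 (π i)) : Ideal eis)) : ℂ) = ((nr (π i) : ℤ) : ℂ) := by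
        rw [← h2]
        push_cast
        rfl
      rw [h3, h1, nr_form]
      push_cast
      ring
    rw [e1]
    exact v_mul_le_of le_rfl (v_int _)
  · intro i
    obtain ⟨x, y, h1, hr⟩ := hex i
    have h2 : (Nat.card (eis ⧸ (sp (eq0 (π i)) : Ideal eis)) : ℤ) = nr (π i) := by
      rw [← Pool.Agent.Y715.T.Tf.up_sp, Pool.Agent.Y715.T.Tf.card_up,
        Pool.Agent.Y715.T.Rs.card_quo]
    have h3 : (Nat.card (eis ⧸ (sp (eq0 (π i)) : Ideal eis)) : ℂ) = ((nr (π i) : ℤ) : ℂ) := by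
      rw [← h2]
      push_cast
      rfl
    have e1 : ((eq0 (π i) : eis) : ℂ) = 1 + 3 * (x + y * om) := by
      rw [Pool.Agent.Y715.T.Rs.eq0_coe, h1, map_add, map_mul, map_one, map_ofNat, toC_eq']
    show Cg v ((((eq0 (π i) : eis) : ℂ) - 1) / 3 -
      ((Nat.card (eis ⧸ (sp (eq0 (π i)) : Ideal eis)) : ℂ) - 1) / 3) _
    rw [e1, h3, h1, nr_form]
    rw [h1] at hr
    rw [hr]
    have e2 : (1 + 3 * ((x : ℂ) + y * om) - 1) / 3 -
        (((1 + 3 * (2 * x - y) + 9 * nr (⟨x, y⟩ : Ei) : ℤ) : ℂ) - 1) / 3 =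
        ((-(x + y) : ℤ) : ℂ) + (3 * ((y - nr (⟨x, y⟩ : Ei) : ℤ) : ℂ) - (1 - om) * ((y : ℤ) : ℂ)) := by
      push_cast
      ring
    rw [e2, ← Int.cast_neg]
    refine Cg.of_sub (t := ((-(x + y) : ℤ) : ℂ)) ?_ (Pool.Agent.Y715.T.Cg.Cg.int hv _)
    rw [add_sub_cancel_left]
    refine v.map_sub_lt ?_ ?_
    · exact (v_mul_le_of le_rfl (v_int _)).trans_lt hv
    · refine (v_mul_le_of le_rfl (v_int _)).trans_lt ?_
      rw [Ana.om_val hv]
      exact lam_lt hv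

lemma kap_val (hv : v 3 < 1) {L : PeriodPair} {Ω : ℂ} (hC : Cur L Ω) :
    v (Pool.Agent.Y715.T.Lat.kap L Ω) = v lam := by
  unfold Pool.Agent.Y715.T.Lat.kap
  have h8 : v (℘[L] (Ω / 3)) = 1 := by
    refine z_pow (k := 6) (by norm_num) ?_
    have := hC.x0
    linear_combination (℘[L] (Ω / 3) ^ 3 - 1) * this
  have h9 : v (℘'[L] (Ω / 3)) ^ 2 = v lam ^ 2 := by
    rw [← map_pow, hC.y0, v.map_neg, pow_two, sq_three]
  rw [map_mul, map_mul, map_pow, h8, one_pow, mul_one, v_two hv, one_mul]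
  exact (pow_left_inj₀ zero_le zero_le two_ne_zero).1 h9

/-- **The valuation of the central value**, general case. -/
theorem an_val [Fintype J] [Nonempty J] (hb : S_AN1b) (h : Dt π e) :
    ∃ F : ℂ → ℂ, IsHL π e F ∧
      ∀ (Γ : Type) [LinearOrderedCommGroupWithZero Γ] (v : Valuation ℂ Γ), v 3 < 1 →
        ∀ (L : PeriodPair) (Ω : ℂ), Cur L Ω → ∃ s : ℂ,
          Cg v s (Pool.Agent.Y715.T.Comb.D (am π e) (fun i => -rq (π i)) Finset.univ) ∧
            v ((starRingEnd ℂ) (F 1) / Ω) * v lam = v lam ^ (Fintype.card J - 1) * v s := by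
  obtain ⟨F, hF, hval⟩ := hb J π e h
  refine ⟨F, hF, ?_⟩
  intro Γ _ v hv L Ω hC
  have : Fintype (eis ⧸ (sp 3 : Ideal eis)) :=
    @Fintype.ofFinite _ (fin_quot _ Pool.Agent.Y696.three_ne)
  obtain ⟨ρ, n, hn, hρ, hval⟩ := hval L Ω hC
  have hz : Zt v (toC w) := zt_of_prim hv (k := 1) le_rfl (by
    rw [pow_one]
    exact Pool.Agent.Y715.T.Fin.prim_w)
  have hw : toC w = om := by
    have := toC_eq' 0 1
    have e1 : (w : Ei) = ⟨0, 1⟩ := rfl
    rw [e1, this]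
    push_cast
    ring
  have hzl : v (1 - toC w) = v lam := by
    rw [hw]
    exact Ana.om_val hv
  have hfy := fy (v := v) hv h
  have h3π : ∀ i, eq0 (π i) - 1 ∈ (sp 3 : Ideal eis) := by
    intro i
    exact Pool.Agent.Y715.T.Ex.three_mem.2 (h.pq i).three
  have hcg := Ana.sT_cg hv hC fin_quot hfy hz hzl h3π Finset.univ Finset.univ_nonempty
  refine ⟨_, hcg, ?_⟩
  have hκ := Ana.kap_ne hC
  have hz1 := hz.ne
  have e1 : SPt L Ω π e Finset.univ = Pool.Agent.Y715.T.Lat.kap L Ω *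
      (3 * (1 - toC w) ^ (Fintype.card J - 1)) *
        Ana.sT L Ω (fun i => eq0 (π i)) (Xc π e) (toC w) Finset.univ := by
    unfold Ana.sT
    rw [Finset.card_univ, mul_div_cancel₀]
    · rfl
    · exact mul_ne_zero hκ (mul_ne_zero (by norm_num) (pow_ne_zero _ hz1))
  have hc : v (∏ j, toC (π j)) = 1 := by
    rw [map_prod]
    refine Finset.prod_eq_one fun i _ => ?_
    apply v_unit
    exact (hfy.lin i).trans_lt hv
  have h18 : v 18 = v lam ^ 4 := by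
    have : (18 : ℂ) = 2 * 9 := by norm_num
    rw [this, map_mul, v_two hv, one_mul, Pool.Agent.Y715.T.Three.v_nine]
  rw [hval, e1]
  simp only [map_mul, map_inv₀, map_pow, hc, z_pow hn hρ, kap_val hv hC, hzl, h18, inv_one,
    mul_one]
  have hl : v lam ≠ 0 := lam_ne
  rw [← sq_three]
  field_simp

/-- the value is as large as possible -/
theorem an_main [Fintype J] [Nonempty J] (hb : S_AN1b) (hrec : S_REC) (h : Dt π e)
    (hk : Ker π e) (hs : ∑ j, e j * rq (π j) ≠ 0) :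
    ∃ F : ℂ → ℂ, IsHL π e F ∧ F 1 ≠ 0 ∧
      ∀ (Γ : Type) [LinearOrderedCommGroupWithZero Γ] (v : Valuation ℂ Γ), v 3 < 1 →
        ∀ (L : PeriodPair) (Ω : ℂ), Cur L Ω →
          v ((starRingEnd ℂ) (F 1) / Ω) * v lam = v lam ^ (Fintype.card J - 1) := by
  obtain ⟨F, hF, hval⟩ := an_val hb h
  have hD : Pool.Agent.Y715.T.Comb.D (am π e) (fun i => -rq (π i)) Finset.univ ≠ 0 := by
    refine Pool.Agent.Y715.T.Comb.D_ne (ε := e) Finset.univ_nonempty (fun i _ => h.e0 i) ?_ ?_ ?_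
    · intro i _ j _ hij
      unfold am
      rw [hrec (π i) (π j) (h.pq i) (h.pq j) (h.nd i j hij)]
      ring
    · intro v hv i _ j _
      refine hk v (fun j => ?_) i j
      have h1 := hv j (Finset.mem_univ j)
      rw [← h1]
      refine Finset.sum_congr rfl fun i _ => ?_
      by_cases hij : i = j
      · rw [hij, sub_self, mul_zero, mul_zero]
      · unfold am
        rw [hrec (π i) (π j) (h.pq i) (h.pq j) (h.nd i j hij)]
        ring
    · intro h1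
      apply hs
      rw [← neg_eq_zero, ← h1, ← Finset.sum_neg_distrib]
      exact Finset.sum_congr rfl fun i _ => by ring
  have hmain : ∀ (Γ : Type) [LinearOrderedCommGroupWithZero Γ] (v : Valuation ℂ Γ), v 3 < 1 →
        ∀ (L : PeriodPair) (Ω : ℂ), Cur L Ω →
          v ((starRingEnd ℂ) (F 1) / Ω) * v lam = v lam ^ (Fintype.card J - 1) := by
    intro Γ _ v hv L Ω hC
    obtain ⟨s, hs1, hs2⟩ := hval Γ v hv L Ω hC
    rw [hs2, hs1.eq_one hv hD, mul_one]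
  refine ⟨F, hF, ?_, hmain⟩
  intro h0
  obtain ⟨B, hB⟩ := Pool.Agent.Y715.T.Fin.exists_over_three
  obtain ⟨θ, hθ, hL⟩ := Pool.Agent.Y696.exists_cur
  have h1 := hmain _ B.valuation hB _ _ hL
  rw [h0, map_zero, zero_div, map_zero, zero_mul] at h1
  exact pow_ne_zero _ lam_ne h1.symm

end Xc

end Pool.Agent.Y703.CT
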