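import Pool.Agent.Y703.CT.Defs

/-!
# Project CT: statements of the elementary parts over `ℚ` (light imports)
-/

set_option autoImplicit false

open scoped Classical

namespace Pool.Agent.Y703.CT

open Pool.Agent.W97.MT (affCount ap IsGloballyMinimal)
open Pool.Agent.Y700 (psi Omega SingRed E0 tam S_E0)

/-- CT-MIN: the equation `y² + D y = x³` is globally minimal. -/
def S_MIN : Prop := ∀ D : ℕ, Base D → IsGloballyMinimal (WD D)

/-- CT-TAM: `c_p = 3` for `p ∣ D`, `c₃ = 1` or `2`. -/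
def S_TAM : Prop := S_E0 → ∀ D : ℕ, Base D →
  ∃ m : ℕ, ¬ 3 ∣ m ∧ tamProd (WD D) = 3 ^ D.primeFactors.card * m

/-- CT-PER: the real period. -/
def S_PER : Prop := ∀ D : ℕ, 0 < D → Omega (WD D) =
  √3 * (Real.Gamma (1 / 3) ^ 3 / (2 * Real.pi)) / (D : ℝ) ^ (1 / 3 : ℝ)

/-- CT-INF: one more prime. -/
def S_INF : Prop := ∀ D : ℕ, Cls D → NoSplit D →
  {p : ℕ | p.Prime ∧ p % 3 = 1 ∧ ¬ p ∣ D ∧ Cls (D * p) ∧ NoSplit (D * p)}.Infinite

end Pool.Agent.Y703.CT
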