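import Pool.Agent.Y703.CT.StmB
import Pool.Agent.Y715.T.Fin

/-!
# Project CT: the central value as a sum over the residues
-/

set_option autoImplicit false

open scoped Classical

namespace Pool.Agent.Y703.CT

open Pool.Agent.Y692.QS (Ei w nr toC)
open Pool.Agent.Y715.T.Rec (cs)
open Pool.Agent.Y696 (Cur eis psi)
open Pool.Agent.Y715.T.Rs (eq0)
open Pool.Agent.W192.HK (sp)
open Pool.Agent.TH936.CM Pool.Agent.TH936.PU Pool.Agent.Y715.Idn

/-- the function of `x` attached to `π i`: the inverse of the cubic symbol to the power `e i` -/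
noncomputable def Xc {J : Type} (π : J → Ei) (e : J → ZMod 3) (i : J) (x : eis) : ℂ :=
  if π i ∣ eq0.symm x then 0
  else toC w ^ (-(e i * cs (π i) (eq0.symm x))).val

/-- the sum `SP` for the three odd powers of the character `ee psi`, added up -/
noncomputable def SPt {J : Type} [Fintype (eis ⧸ (sp 3 : Ideal eis))] (L : PeriodPair) (Ω : ℂ)
    (π : J → Ei) (e : J → ZMod 3) (S : Finset J) : ℂ :=
  ∑ j : Fin 3, SP L Ω 3 (fun x => ee psi x ^ (2 * (j : ℕ) + 1))
    (if j = 0 then Pool.Agent.Y715.T.Lat.kap L Ω else 0)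
    (fun i => eq0 (π i)) (Xc π e) S

/-- CT-AN1b: the entire continuation and the central value. -/
def S_AN1b : Prop := ∀ (J : Type) [Fintype J] [Nonempty J] (π : J → Ei) (e : J → ZMod 3),
  Dt π e → ∃ F : ℂ → ℂ, IsHL π e F ∧
    ∀ [Fintype (eis ⧸ (sp 3 : Ideal eis))] (L : PeriodPair) (Ω : ℂ), Cur L Ω →
      ∃ (ρ : ℂ) (n : ℕ), 0 < n ∧ ρ ^ n = 1 ∧
        (starRingEnd ℂ) (F 1) / Ω =
          (18 : ℂ)⁻¹ * (∏ j, toC (π j))⁻¹ * ρ * SPt L Ω π e Finset.univ

end Pool.Agent.Y703.CT
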