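import Pool.Agent.Y703.CT.StmC
import Pool.Agent.Y715.T.Comb

/-!
# Project CT: statements of the converse (nontrivial kernel gives nontrivial Selmer classes)
-/

set_option autoImplicit false
set_option linter.unusedVariables false

open scoped Classical

namespace Pool.Agent.Y703.CT

open WeierstrassCurve
open Pool.Agent.Y692.QS (Ei w nr toC)
open Pool.Agent.Y715.T.Rec (cs)
open Pool.Agent.Y715.T.RecG (Pq)
open Pool.Agent.Y715.T.Gi Pool.Agent.Y715.T.Nr Pool.Agent.Y715.T.Df Pool.Agent.Y715.T.Ell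

/-- CT-FF: diagonal cubic forms over finite fields have nontrivial zeros. -/
def S_FF : Prop := ∀ (F : Type) [Field F] [Finite F] (a b : F), a ≠ 0 → b ≠ 0 →
  ∃ x y z : F, (x ≠ 0 ∨ y ≠ 0 ∨ z ≠ 0) ∧ x ^ 3 = a * y ^ 3 + b * z ^ 3

/-- a solution of `s³ = B² t³ + B D r³` in the field generated by `I` -/
structure Sol {p : ℕ} [Fact p.Prime] {I : PadicAlgCl p} (hI : I ^ 2 + I + 1 = 0) (B D : Ei)
    (s t r : PadicAlgCl p) : Prop where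
  fixed : ∀ τ : Au p, τ I = I → τ s = s ∧ τ t = t ∧ τ r = r
  ne : s ≠ 0 ∨ t ≠ 0 ∨ r ≠ 0
  eq : s ^ 3 = ev I hI B ^ 2 * t ^ 3 + ev I hI B * ev I hI D * r ^ 3

/-- CT-CUB: local solutions at the good primes. -/
def S_CUB : Prop := S_FF → ∀ (p : ℕ) [Fact p.Prime], p ≠ 3 → ∀ (I : PadicAlgCl p)
  (hI : I ^ 2 + I + 1 = 0) (B D : Ei), ¬ ‖ev I hI B‖ < 1 → ¬ ‖ev I hI D‖ < 1 →
  ∃ s t r, Sol hI B D s t r

/-- CT-CUB3: local solutions at three. -/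
def S_CUB3 : Prop := ∀ (_ : Fact (Nat.Prime 3)) (I : PadicAlgCl 3) (hI : I ^ 2 + I + 1 = 0)
  (B D : Ei), (3 : Ei) ∣ B - 1 → (3 : Ei) ∣ D - 1 → ¬ (9 : ℤ) ∣ nr D - 1 →
  ∃ s t r, Sol hI B D s t r

/-- CT-PT: a local solution gives a local point `R` with `τ * R - R = h(σ) T`. -/
def S_PT : Prop := ∀ (i₀ : QB) (hi : i₀ ^ 2 + i₀ + 1 = 0) (B D : Ei), B ≠ 0 → D ≠ 0 →
  ∀ (u : QB) (a : GK i₀ → ZMod 3), Tw hi D u a → ∀ (h : GK i₀ → ZMod 3), Kc hi B h →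
  ∀ (p : ℕ) [Fact p.Prime] (ι : QB →ₐ[ℚ] PadicAlgCl p),
    (∃ s t r, Sol (iota_sq' hi ι) B D s t r) → ∃ R, St1 hi ι a h R

/-- CT-RAMC: the primes dividing `D`. -/
def S_RAMC : Prop := ∀ (J : Type) [Fintype J] (π : J → Ei) (e : J → ZMod 3), Dt π e →
  ∀ (i₀ : QB) (hi : i₀ ^ 2 + i₀ + 1 = 0) (u : QB) (a : GK i₀ → ZMod 3), Tw hi (pD π e) u a →
  ∀ (v : J → ZMod 3) (h : GK i₀ → ZMod 3), Kc hi (∏ j, π j ^ (e j * v j).val) h →
  ∀ j : J, ∑ i, e i * cs (π j) (π i) * (v i - v j) = 0 →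
  ∀ (p : ℕ) [Fact p.Prime] (ι : QB →ₐ[ℚ] PadicAlgCl p), ‖ι (ev i₀ hi (π j))‖ < 1 →
    ∃ R, St1 hi ι a h R

/-- CT-SELC: a nontrivial kernel gives a nontrivial Selmer class. -/
def S_SELC : Prop := S_FF → S_CUB → S_CUB3 → S_PT → S_RAMC →
  ∀ (J : Type) [Fintype J] (π : J → Ei) (e : J → ZMod 3), Dt π e → ¬ Ker π e →
  ¬ (9 : ℤ) ∣ nr (pD π e) - 1 →
  ∀ (i₀ : QB) (hi : i₀ ^ 2 + i₀ + 1 = 0) (u : QB) (a : GK i₀ → ZMod 3), Tw hi (pD π e) u a →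
  ¬ Sel1 hi a

/-- CT-SHC: if the group of points is finite and the `3`-primary part of the Tate-Shafarevich group
is trivial then the Selmer group is as small as possible. -/
def S_SHC : Prop := ∀ (D : Ei), D ≠ 0 → ∀ (i₀ : QB) (hi : i₀ ^ 2 + i₀ + 1 = 0) (u : QB)
  (a : GK i₀ → ZMod 3), Tw hi D u a → (∃ σ, a σ ≠ 0) → ShK hi a → MwK hi a → Sel1 hi a

/-- CT-DZ: the determinant of a Laplacian with a nontrivial kernel. -/
def S_DZ : Prop := ∀ (ι : Type) [Fintype ι] [DecidableEq ι] (a : ι → ι → ZMod 3)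
  (b ε : ι → ZMod 3), Nonempty ι → (∀ i, ε i ≠ 0) →
  (∀ i j, i ≠ j → ε i * a i j = ε j * a j i) →
  (¬ ∀ v : ι → ZMod 3, (∀ i, ∑ j, a i j * (v i - v j) = 0) → ∀ i j, v i = v j) →
  Pool.Agent.Y715.T.Comb.D a b Finset.univ = 0

end Pool.Agent.Y703.CT
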