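import Pool.Agent.Y703.CT.AN1
import Pool.Agent.Y703.CT.StmA
import Pool.Agent.Y703.CT.StmC
import Pool.Agent.Y288.CT.Min
import Pool.Agent.Y145.CT.Tam
import Pool.Agent.Y333.CT.PER
import Pool.Agent.Y261.CT.Inf
import Pool.Agent.Y350.CT.REC
import Pool.Agent.Y274.CT.ExiCnt
import Pool.Agent.Y405.CT.Cri
import Pool.Agent.Y696.CT.LQ
import Pool.Agent.Y180.CT.Loc3
import Pool.Agent.Y153.CT.RAM
import Pool.Agent.Y48.CT.SEL
import Pool.Agent.Y155.CT.Act
import Pool.Agent.Y155.CT.Mwk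
import Pool.Agent.Y692.CT.Desq
import Pool.Agent.Y715.T.Pf
import Pool.Agent.Y715.CT.AN1b
import Pool.Agent.Y319.CT.DZ

/-!
# The `3`-part of the leading-term formula for the cubic twists, assembly
-/

set_option autoImplicit false
set_option linter.unusedSectionVars false

open scoped Classical

namespace Pool.Agent.Y703.CT

open Pool.Agent.W97.MT (affCount ap IsGloballyMinimal)
open Pool.Agent.Y700 (psi Omega SingRed E0 tam S_E0)
open Pool.Agent.Y692.QS (Ei w nr toC)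
open Pool.Agent.Y715.T.Rec (cs)
open Pool.Agent.Y715.T.RecG (Pq)
open Pool.Agent.Y715.T.Gi Pool.Agent.Y715.T.Nr Pool.Agent.Y715.T.Df Pool.Agent.Y715.T.Ell
open Pool.Agent.TH841.SH.D (Sha)
open Pool.Agent.Y715.T.Three (sq_three v_two)

/-! ### descent -/

section desc

variable {i₀ : QB} {hi : i₀ ^ 2 + i₀ + 1 = 0}

/-- the cube root and its character -/
lemma exists_tw (hi : i₀ ^ 2 + i₀ + 1 = 0) {D : Ei} (hD : D ≠ 0) :
    ∃ (u : QB) (a : GK i₀ → ZMod 3), Tw hi D u a := by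
  obtain ⟨u, hu⟩ := Pool.Agent.Y715.T.Sel.ex_root (ev i₀ hi D)
  have h3 : i₀ ^ 3 = 1 := i₀_cube hi
  have hc : ∀ σ : GK i₀, ∃ c : ZMod 3, σ u = i₀ ^ (-c).val * u := by
    intro σ
    have h1 : (σ u) ^ 3 = u ^ 3 := by rw [← map_pow, hu, gk_ev]
    obtain ⟨n, hn⟩ := cube_eq hi h1
    refine ⟨-(n : ZMod 3), ?_⟩
    rw [neg_neg, ZMod.val_natCast, hn]
    congr 1
    conv_lhs => rw [← Nat.div_add_mod n 3]
    rw [pow_add, pow_mul, h3, one_pow, one_mul]
  choose a ha using hc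
  exact ⟨u, a, hu, ha⟩

/-- `D` is not a cube -/
lemma a_ne {J : Type} [Fintype J] [Nonempty J] {π : J → Ei} {e : J → ZMod 3} (hD : Dt π e)
    {u : QB} {a : GK i₀ → ZMod 3} (hT : Tw hi (pD π e) u a) : ∃ σ, a σ ≠ 0 := by
  by_contra hcon
  push Not at hcon
  have hne : pD π e ≠ 0 := Pool.Agent.Y153.CTRAM.ne_zero_of hD
  obtain ⟨j⟩ := (inferInstance : Nonempty J)
  have hb : Kc hi (pD π e) (fun σ => -a σ) :=
    kc_of hi (Pool.Agent.Y715.T.Sel.root_ne (hi := hi) hne hT.cube) hT.cube hT.act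
  obtain ⟨p, hp, ι, hl⟩ := exists_emb hi (hD.pq j).prime
  have hp3 := Pool.Agent.Y715.T.Sel.odd_of hi ι (hD.pq j).prime hl
    (Pool.Agent.Y48.CT.SEL.not_assoc_lam (hD.pq j))
  have hcf : CF (pD π e) := Pool.Agent.Y48.CT.SEL.cf_prod hD e
  refine Pool.Agent.Y715.T.Sel.not_dvd_of_unr hcf hb hp3 ι (hD.pq j).prime hl
    (fun τ σ _ _ => by rw [hcon σ, neg_zero]) ?_
  unfold pD
  refine (dvd_pow_self (π j) ?_).trans (Finset.dvd_prod_of_mem _ (Finset.mem_univ j))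
  rw [Ne, ZMod.val_eq_zero]
  exact hD.e0 j

theorem descK {J : Type} [Fintype J] [Nonempty J] {π : J → Ei} {e : J → ZMod 3} (hD : Dt π e)
    (hk : Ker π e) (h9 : ¬ (9 : ℤ) ∣ nr (pD π e) - 1)
    {u : QB} {a : GK i₀ → ZMod 3} (hT : Tw hi (pD π e) u a) : ShK hi a ∧ MwK hi a := by
  have hne : pD π e ≠ 0 := Pool.Agent.Y153.CTRAM.ne_zero_of hD
  have hsel : Sel1 hi a := Pool.Agent.Y48.CT.SEL.t_SEL Pool.Agent.Y350.CT.rec
    Pool.Agent.Y180.CT.t_loc3 Pool.Agent.Y153.CTRAM.t_RAM Pool.Agent.Y153.CTRAM.t_UNR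
    J π e hD hk h9 i₀ hi u a hT
  exact ⟨Pool.Agent.Y155.CT.t_SHK _ hne i₀ hi u a hT hsel,
    Pool.Agent.Y155.CT.t_MWK _ hne i₀ hi u a hT (a_ne hD hT) hsel⟩

end desc

theorem descQ {D : ℕ} {J : Type} [Fintype J] [Nonempty J] {π : J → Ei} {e : J → ZMod 3}
    (hD : Dt π e) (hk : Ker π e) (h9 : ¬ (9 : ℤ) ∣ nr (pD π e) - 1)
    (hDp : (D : Ei) = pD π e ∨ (D : Ei) = -pD π e) :
    Finite (EQ (WD D)).toAffine.Point ∧
    padicValNat 3 (Nat.card (EQ (WD D)).toAffine.Point) = 1 ∧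
    ∀ (n : ℕ) (x : Sha (EQ (WD D))), 3 ^ n • x = 0 → x = 0 := by
  obtain ⟨i₀, hi⟩ : ∃ i₀ : QB, i₀ ^ 2 + i₀ + 1 = 0 := by
    obtain ⟨x, hx⟩ := IsAlgClosed.exists_root
      (Polynomial.X ^ 2 + Polynomial.X + 1 : Polynomial QB) (by
        have : (Polynomial.X ^ 2 + Polynomial.X + 1 : Polynomial QB).degree = 2 := by
          compute_degree!
        rw [this]
        norm_num)
    refine ⟨x, ?_⟩
    have h1 := hx
    rw [Polynomial.IsRoot] at h1
    simpa using h1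
  have hne : pD π e ≠ 0 := Pool.Agent.Y153.CTRAM.ne_zero_of hD
  obtain ⟨u, a, hT⟩ := exists_tw hi hne
  obtain ⟨h1, h2⟩ := descK hD hk h9 hT
  have hD0 : (D : ℤ) ≠ 0 := by
    intro h0
    have h3 : (D : Ei) = 0 := by
      have : ((D : ℤ) : Ei) = 0 := by rw [h0]; exact Int.cast_zero
      simpa using this
    rcases hDp with h | h
    · exact hne (by rw [← h, h3])
    · exact hne (by rw [← neg_eq_zero, ← h, h3])
  rcases hDp with h | h
  · have hT' : Tw hi ((D : ℤ) : Ei) u a := by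
      have e1 : ((D : ℤ) : Ei) = pD π e := by rw [Int.cast_natCast, h]
      rw [e1]
      exact hT
    exact Pool.Agent.Y692.CT.desq D hD0 i₀ hi u a hT' h1 h2
  · have hT' : Tw hi ((D : ℤ) : Ei) (-u) a := by
      have e1 : ((D : ℤ) : Ei) = -pD π e := by rw [Int.cast_natCast, h]
      rw [e1]
      refine ⟨?_, fun σ => ?_⟩
      · rw [Odd.neg_pow (by decide), hT.cube, map_neg]
      · rw [map_neg, hT.act σ]
        ring
    exact Pool.Agent.Y692.CT.desq D hD0 i₀ hi (-u) a hT' h1 h2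

/-! ### the value -/

lemma nr_nine {D : ℕ} (hD : Cls D) {x : Ei} (hx : (D : Ei) = x ∨ (D : Ei) = -x) :
    ¬ (9 : ℤ) ∣ nr x - 1 := by
  have h1 : nr x = (D : ℤ) ^ 2 := by
    have h2 : nr (D : Ei) = (D : ℤ) ^ 2 := Pool.Agent.Y692.QS.nr_nat D
    rw [← h2]
    rcases hx with h | h
    · rw [h]
    · have e : x = -(D : Ei) := by rw [h, neg_neg]
      rw [e]
      unfold Pool.Agent.Y692.QS.nr
      simp
  rw [h1]
  obtain ⟨⟨-, h3, -⟩, h4, h5, -⟩ := hD
  intro h9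
  have h6 : (D : ℤ) % 9 = ((D % 9 : ℕ) : ℤ) := by push_cast; rfl
  have h7 : ((D : ℤ) ^ 2 - 1) % 9 = 0 := Int.emod_eq_zero_of_dvd h9
  have h8 : D % 9 < 9 := Nat.mod_lt _ (by norm_num)
  have h10 : D % 9 % 3 ≠ 0 := by omega
  have h11 : ((D : ℤ) ^ 2 - 1) % 9 = (((D : ℤ) % 9) ^ 2 - 1) % 9 := by
    rw [Int.sub_emod, pow_two, Int.mul_emod, ← pow_two, ← Int.sub_emod]
  rw [h11, h6] at h7
  generalize D % 9 = r at *
  interval_cases r <;> simp_all

/-! ### the value -/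

section value

open Pool.Agent.Y715.T.Cg (Cg z_pow)
open Pool.Agent.Y715.T.Three (lam_ne lam_lt lam_ne' lam_pos)
open Pool.Agent.Y715.T.Om (Om Om_pos exists_lat)
open Pool.Agent.Y696 (Cur)

variable {Γ : Type} [LinearOrderedCommGroupWithZero Γ] {v : Valuation ℂ Γ}

lemma conj_lam : (starRingEnd ℂ) Pool.Agent.Y715.T.Three.lam = -Pool.Agent.Y715.T.Three.lam := by
  unfold Pool.Agent.Y715.T.Three.lam
  apply Complex.ext <;> simp

lemma v_natp (hv : v 3 < 1) {m : ℕ} (hm : ¬ 3 ∣ m) : v (m : ℂ) = 1 := by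
  have h1 : v (m : ℂ) ≤ 1 := Pool.Agent.Y715.Two.v_nat m
  refine le_antisymm h1 ?_
  by_contra hcon
  push Not at hcon
  have hc : IsCoprime (m : ℤ) (3 : ℤ) := by
    rw [isCoprime_comm, (Int.prime_three).coprime_iff_not_dvd]
    omega
  obtain ⟨a, b, hab⟩ := hc
  have h2 : (a : ℂ) * m + b * 3 = 1 := by exact_mod_cast hab
  have h3 : v (1 : ℂ) < 1 := by
    rw [← h2]
    refine v.map_add_lt ?_ ?_
    · rw [map_mul]
      exact (mul_le_mul' (Pool.Agent.Y715.Two.v_int a) le_rfl).trans_lt (by rwa [one_mul])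
    · rw [map_mul]
      exact (mul_le_mul' (Pool.Agent.Y715.Two.v_int b) le_rfl).trans_lt (by rwa [one_mul])
  rw [map_one] at h3
  exact lt_irrefl _ h3

/-- the value up to the real period `Om` -/
lemma val_real {J : Type} [Fintype J] {F : ℂ → ℂ} {d : ZMod 3}
    (hval : ∀ (Γ : Type) [LinearOrderedCommGroupWithZero Γ] (v : Valuation ℂ Γ), v 3 < 1 →
        ∀ (L : PeriodPair) (Ω : ℂ), Cur L Ω → ∃ s : ℂ, Cg v s d ∧
            v ((starRingEnd ℂ) (F 1) / Ω) * v Pool.Agent.Y715.T.Three.lam = v Pool.Agent.Y715.T.Three.lam ^ (Fintype.card J - 1) * v s)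
    (hv : v 3 < 1) : ∃ g : Γ, g ≤ 1 ∧ (d ≠ 0 → g = 1) ∧ (d = 0 → g < 1) ∧
      v (F 1 / Om) * v Pool.Agent.Y715.T.Three.lam = v Pool.Agent.Y715.T.Three.lam ^ (Fintype.card J - 1) * g := by
  obtain ⟨L, ξ, hξ, hL⟩ := exists_lat
  have hv' : (v.comap (starRingEnd ℂ)) 3 < 1 := by
    rw [Valuation.comap_apply, map_ofNat]
    exact hv
  obtain ⟨s, hs, h1⟩ := hval Γ (v.comap (starRingEnd ℂ)) hv' L _ hL
  refine ⟨(v.comap (starRingEnd ℂ)) s, hs.le, fun hd => hs.eq_one hv' hd, fun hd => ?_, ?_⟩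
  · rw [hd] at hs
    exact hs.lt_one
  · have hξv : v ((starRingEnd ℂ) ξ) = 1 := by
      refine z_pow (k := 12) (by norm_num) ?_
      rw [← map_pow, hξ, map_one]
    have h2 : (v.comap (starRingEnd ℂ)) Pool.Agent.Y715.T.Three.lam = v Pool.Agent.Y715.T.Three.lam := by
      rw [Valuation.comap_apply, conj_lam, v.map_neg]
    rw [h2] at h1
    rw [← h1]
    congr 1
    rw [Valuation.comap_apply, map_div₀ (starRingEnd ℂ), Complex.conj_conj,
      map_mul (starRingEnd ℂ), Complex.conj_ofReal, map_div₀, map_div₀, map_mul, hξv, mul_one]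

/-- the normalized value -/
theorem value {D : ℕ} (hC : Cls D) {J : Type} [Fintype J] [Nonempty J] {π : J → Ei}
    {e : J → ZMod 3} (hD : Dt π e) (hDp : (D : Ei) = pD π e ∨ (D : Ei) = -pD π e) :
    ∃ f, IsL (WD D) f ∧ ∃ u : ℂ,
      f 1 = u * (((Omega (WD D) : ℝ) : ℂ) * (tamProd (WD D) : ℂ) / 9) ∧
      ∀ (Γ : Type) [LinearOrderedCommGroupWithZero Γ] (v : Valuation ℂ Γ), v 3 < 1 →
        v u ≤ 1 ∧ (Ker π e → v u = 1) ∧ (¬ Ker π e → v u < 1) := by
  have hB := hC.1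
  obtain ⟨F, hF, hval⟩ := an_val Pool.Agent.Y715.CT.AN1b.an1b hD.neg
  refine ⟨F, Pool.Agent.Y696.CT.LQ Pool.Agent.Y350.CT.rec D hB J π e hD hDp F hF, ?_⟩
  set d : ZMod 3 := Pool.Agent.Y715.T.Comb.D (am π (fun j => -e j)) (fun i => -rq (π i))
    Finset.univ with hd
  have hsum : ∑ j, e j * rq (π j) ≠ 0 := (sum_ne_iff hD).1 (nr_nine hC hDp)
  have hrec := Pool.Agent.Y350.CT.rec
  -- the determinant
  have hd1 : Ker π e → d ≠ 0 := by
    intro hk
    have hk' := hk.neg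
    refine Pool.Agent.Y715.T.Comb.D_ne (ε := fun j => -e j) Finset.univ_nonempty
      (fun i _ => hD.neg.e0 i) ?_ ?_ ?_
    · intro i _ j _ hij
      unfold am
      rw [hrec (π i) (π j) (hD.pq i) (hD.pq j) (hD.nd i j hij)]
      ring
    · intro v hv i _ j _
      refine hk' v (fun j => ?_) i j
      have h1 := hv j (Finset.mem_univ j)
      rw [← h1]
      refine Finset.sum_congr rfl fun i _ => ?_
      by_cases hij : i = j
      · rw [hij, sub_self, mul_zero, mul_zero]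
      · unfold am
        rw [hrec (π i) (π j) (hD.pq i) (hD.pq j) (hD.nd i j hij)]
        ring
    · intro h1
      apply hsum
      rw [← h1]
      exact Finset.sum_congr rfl fun i _ => by ring
  have hd0 : ¬ Ker π e → d = 0 := by
    intro hk
    refine Pool.Agent.Y319.CT.t_DZ J (am π (fun j => -e j)) (fun i => -rq (π i)) (fun j => -e j)
      inferInstance (fun i => hD.neg.e0 i) ?_ ?_
    · intro i j hij
      unfold am
      rw [hrec (π i) (π j) (hD.pq i) (hD.pq j) (hD.nd i j hij)]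
      ring
    · intro hcon
      apply hk
      intro v hv
      refine hcon v fun j => ?_
      have h1 := hv j
      rw [← neg_eq_zero, ← Finset.sum_neg_distrib] at h1
      rw [← h1]
      refine Finset.sum_congr rfl fun i _ => ?_
      by_cases hij : i = j
      · rw [hij, sub_self, mul_zero, mul_zero, neg_zero]
      · unfold am
        rw [hrec (π i) (π j) (hD.pq i) (hD.pq j) (hD.nd i j hij)]
        ring
  -- periods and Tamagawa numbers
  obtain ⟨m, hm3, hm⟩ := Pool.Agent.Y145.CT.tamThm Pool.Agent.Y809.BSD14.t_E0 D hB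
  have hper := Pool.Agent.Y333.CT.per D (Nat.pos_of_ne_zero hB.1)
  have hcnt := Pool.Agent.Y274.CT.t_cnt D hC J π e hD hDp
  set R : ℝ := (D : ℝ) ^ (1 / 3 : ℝ) with hR
  have hDpos : (0 : ℝ) < D := by exact_mod_cast Nat.pos_of_ne_zero hB.1
  have hR3 : R ^ 3 = D := by
    rw [hR, ← Real.rpow_natCast, ← Real.rpow_mul hDpos.le]
    norm_num
  have hRpos : 0 < R := Real.rpow_pos_of_pos hDpos _
  have hm0 : m ≠ 0 := by
    rintro rfl
    exact hm3 (dvd_zero 3)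
  have hOm := Om_pos
  have hper' : Omega (WD D) = √3 * Om / R := hper
  set y : ℂ := ((Omega (WD D) : ℝ) : ℂ) * (tamProd (WD D) : ℂ) / 9 with hy
  have hy1 : y = ((√3 : ℝ) : ℂ) * (Om : ℂ) / (R : ℂ) * (3 ^ D.primeFactors.card * m) / 9 := by
    rw [hy, hper', hm]
    push_cast
    ring
  have hs3 : ((√3 : ℝ) : ℂ) ≠ 0 := by
    rw [Ne, Complex.ofReal_eq_zero]
    positivity
  have hOmC : (Om : ℂ) ≠ 0 := by
    rw [Ne, Complex.ofReal_eq_zero]
    exact hOm.ne'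
  have hRC : (R : ℂ) ≠ 0 := by
    rw [Ne, Complex.ofReal_eq_zero]
    exact hRpos.ne'
  have hmC : (m : ℂ) ≠ 0 := by exact_mod_cast hm0
  have hy0 : y ≠ 0 := by
    rw [hy1]
    exact div_ne_zero (mul_ne_zero (div_ne_zero (mul_ne_zero hs3 hOmC) hRC)
      (mul_ne_zero (pow_ne_zero _ three_ne_zero) hmC)) (by norm_num)
  refine ⟨F 1 / y, by field_simp, ?_⟩
  intro Γ _ v hv
  obtain ⟨g, hg1, hg2, hg3, hg⟩ := val_real hval hv
  have hvs : v ((√3 : ℝ) : ℂ) = v Pool.Agent.Y715.T.Three.lam := by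
    have h1 : ((√3 : ℝ) : ℂ) ^ 2 = 3 := by
      rw [← Complex.ofReal_pow, Real.sq_sqrt (by norm_num)]
      norm_num
    have h2 : v ((√3 : ℝ) : ℂ) ^ 2 = v Pool.Agent.Y715.T.Three.lam ^ 2 := by
      rw [← map_pow, h1, pow_two, sq_three]
    exact (pow_left_inj₀ zero_le zero_le two_ne_zero).1 h2
  have hvR : v (R : ℂ) = 1 := by
    have h1 : (R : ℂ) ^ 3 = D := by
      rw [← Complex.ofReal_pow, hR3]
      norm_num
    have h2 : v (R : ℂ) ^ 3 = 1 := by
      rw [← map_pow, h1, v_natp hv hB.2.1]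
    exact (pow_eq_one_iff_of_nonneg zero_le three_ne_zero).1 h2
  have hvm := v_natp hv hm3
  have hl : v Pool.Agent.Y715.T.Three.lam ≠ 0 := lam_ne
  have hOv : v (Om : ℂ) ≠ 0 := (Valuation.ne_zero_iff _).2 hOmC
  have key : v (F 1 / y) = g := by
    have h1 : v (F 1 / y) = v (F 1 / Om) * v 9 / (v Pool.Agent.Y715.T.Three.lam * (v 3) ^ D.primeFactors.card) := by
      rw [hy1]
      simp only [map_div₀, map_mul, map_pow, hvs, hvR, hvm, div_one, mul_one]
      field_simp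
    have h2 : v (F 1 / Om) = v Pool.Agent.Y715.T.Three.lam ^ (Fintype.card J - 1) * g / v Pool.Agent.Y715.T.Three.lam := by
      rw [eq_div_iff hl]
      exact hg
    obtain ⟨n, hn⟩ : ∃ n, Fintype.card J = n + 1 := ⟨Fintype.card J - 1, by
      have := Fintype.card_pos (α := J)
      omega⟩
    obtain ⟨t, ht⟩ : ∃ t, D.primeFactors.card = t + 1 := ⟨D.primeFactors.card - 1, by omega⟩
    have hnt : n = 2 * t := by omega
    have e1 : (v Pool.Agent.Y715.T.Three.lam * v Pool.Agent.Y715.T.Three.lam) ^ t = v Pool.Agent.Y715.T.Three.lam ^ (2 * t) := by rw [← pow_two, ← pow_mul]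
    rw [h1, h2, Pool.Agent.Y715.T.Three.v_nine, ← sq_three, hn, Nat.add_sub_cancel, ht, hnt,
      pow_succ (v Pool.Agent.Y715.T.Three.lam * v Pool.Agent.Y715.T.Three.lam) t, e1]
    field_simp
  rw [key]
  exact ⟨hg1, fun hk => hg2 (hd1 hk), fun hk => hg3 (hd0 hk)⟩

end value

end Pool.Agent.Y703.CT
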